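import Pool.Agent.Helper14.SS.Stub

/-!
# Spectra and arithmetical sets with small sets
-/

set_option autoImplicit false

namespace Pool.Agent.Helper12.SS

open FirstOrder FirstOrder.Language Pool.Agent.Helper20.Spectra Pool.Agent.Helper14.SS

/-- T2a -/
theorem t_spec : StmtSpec := by
  rintro s A ⟨L, hF, hR, φ, hA⟩
  refine ⟨L, hF, hR, .fo (φ.relabel Empty.elim), ?_⟩
  rw [hA]
  ext n
  refine and_congr Iff.rfl ?_
  refine exists_congr (fun M => exists_congr (fun S => exists_congr (fun F => and_congr Iff.rfl ?_)))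
  show φ.Realize M ↔ (φ.relabel Empty.elim).Realize (Fin.elim0 : Fin 0 → M)
  rw [Formula.realize_relabel]
  have e : (Fin.elim0 : Fin 0 → M) ∘ Empty.elim = (default : Empty → M) := by
    funext x; exact x.elim
  rw [e]
  rfl

/-! ### Invariance under isomorphisms -/

lemma holds_transport {S : Type} {ar : S → ℕ} {k m : ℕ} (φ : SFm (RelLang S ar) k m)
    {M N : Type} (e : M ≃ N) (R : Interp S ar M) (R' : Interp S ar N)
    (h : ∀ s w, R s w ↔ R' s (e ∘ w)) (b : ℕ) (v : Fin k → M) (V : Fin m → Finset M) :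
    @SFm.Holds _ M (mkS R) b k m φ v V ↔
      @SFm.Holds _ N (mkS R') b k m φ (e ∘ v) (fun j => (V j).map e.toEmbedding) := by
  induction φ with
  | fo φ =>
    let _ := mkS R
    let _ := mkS R'
    let E : M ≃[RelLang S ar] N :=
      { e with
        map_fun' := fun f => Empty.elim f
        map_rel' := by
          intro n r x
          show R' r.1 _ ↔ R r.1 _
          exact (h _ _).symm }
    exact (StrongHomClass.realize_formula E φ).symm
  | mem i j =>
    show v i ∈ V j ↔ e (v i) ∈ (V j).map e.toEmbedding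
    rw [Finset.mem_map_equiv, Equiv.symm_apply_apply]
  | not φ ih => exact not_congr (ih v V)
  | and φ φ' ih ih' => exact and_congr (ih v V) (ih' v V)
  | ex φ ih =>
    show (∃ x : M, _) ↔ (∃ y : N, _)
    constructor
    · rintro ⟨x, hx⟩
      refine ⟨e x, ?_⟩
      have h1 := (ih (Fin.cons x v) V).1 hx
      have e1 : e ∘ (Fin.cons x v : Fin (_ + 1) → M) = Fin.cons (e x) (e ∘ v) := by
        funext i
        refine Fin.cases ?_ (fun i => ?_) i <;> rfl
      rwa [e1] at h1
    · rintro ⟨y, hy⟩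
      refine ⟨e.symm y, (ih (Fin.cons (e.symm y) v) V).2 ?_⟩
      have e1 : e ∘ (Fin.cons (e.symm y) v : Fin (_ + 1) → M) = Fin.cons y (e ∘ v) := by
        funext i
        refine Fin.cases ?_ (fun i => ?_) i
        · exact e.apply_symm_apply y
        · rfl
      rwa [e1]
  | exSet φ ih =>
    show (∃ X : Finset M, _ ∧ _) ↔ (∃ Y : Finset N, _ ∧ _)
    constructor
    · rintro ⟨X, hc, hX⟩
      refine ⟨X.map e.toEmbedding, by rwa [Finset.card_map], ?_⟩
      have h1 := (ih v (Fin.cons X V)).1 hX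
      have e1 : (fun j => ((Fin.cons X V : Fin (_ + 1) → Finset M) j).map e.toEmbedding) =
          Fin.cons (X.map e.toEmbedding) (fun j => (V j).map e.toEmbedding) := by
        funext i
        refine Fin.cases ?_ (fun i => ?_) i <;> rfl
      rwa [e1] at h1
    · rintro ⟨Y, hc, hY⟩
      refine ⟨Y.map e.symm.toEmbedding, by rwa [Finset.card_map],
        (ih v (Fin.cons (Y.map e.symm.toEmbedding) V)).2 ?_⟩
      have e1 : (fun j => ((Fin.cons (Y.map e.symm.toEmbedding) V :
          Fin (_ + 1) → Finset M) j).map e.toEmbedding) =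
          Fin.cons Y (fun j => (V j).map e.toEmbedding) := by
        funext i
        refine Fin.cases ?_ (fun i => ?_) i
        · show (Y.map e.symm.toEmbedding).map e.toEmbedding = Y
          ext y
          simp [Finset.mem_map_equiv]
        · rfl
      rwa [e1]

/-! ### Axioms for addition and multiplication on an initial segment -/

section Ax

variable {M : Type}

/-- addition -/
def aR (R : Interp Bool (fun _ => 3) M) (x y z : M) : Prop := R true ![x, y, z]
/-- multiplication -/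
def mR (R : Interp Bool (fun _ => 3) M) (x y z : M) : Prop := R false ![x, y, z]
/-- order -/
def lR (R : Interp Bool (fun _ => 3) M) (x y : M) : Prop := ¬ x = y ∧ ∃ z, aR R x z y
/-- zero -/
def zR (R : Interp Bool (fun _ => 3) M) (x : M) : Prop := ∀ b, ¬ lR R b x
/-- successor -/
def sR (R : Interp Bool (fun _ => 3) M) (x y : M) : Prop := lR R x y ∧ ∀ c, ¬ (lR R x c ∧ lR R c y)

/-- the axioms -/
structure Ax (R : Interp Bool (fun _ => 3) M) : Prop where
  trans : ∀ x y z : M, lR R x y → lR R y z → lR R x z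
  total : ∀ x y : M, lR R x y ∨ x = y ∨ lR R y x
  add0 : ∀ x y z : M, zR R y → (aR R x y z ↔ x = z)
  add1 : ∀ x y y' z : M, sR R y y' → (aR R x y' z ↔ ∃ w, aR R x y w ∧ sR R w z)
  mul0 : ∀ x y z : M, zR R y → (mR R x y z ↔ zR R z)
  mul1 : ∀ x y y' z : M, sR R y y' → (mR R x y' z ↔ ∃ w, mR R x y w ∧ aR R w x z)

/-- standard interpretation -/
structure St {n : ℕ} (R : Interp Bool (fun _ => 3) M) (e : M ≃ Fin n) : Prop where
  add : ∀ x y z, aR R x y z ↔ (e x : ℕ) + (e y : ℕ) = (e z : ℕ)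
  mul : ∀ x y z, mR R x y z ↔ (e x : ℕ) * (e y : ℕ) = (e z : ℕ)

variable {n : ℕ} {R : Interp Bool (fun _ => 3) M} {e : M ≃ Fin n}

lemma ex_el (e : M ≃ Fin n) {a : ℕ} (h : a < n) : ∃ x : M, (e x : ℕ) = a :=
  ⟨e.symm ⟨a, h⟩, by rw [Equiv.apply_symm_apply]⟩

lemma el_eq {x y : M} (h : (e x : ℕ) = (e y : ℕ)) : x = y := e.injective (Fin.ext h)

lemma zR_iff (hlt : ∀ x y, lR R x y ↔ (e x : ℕ) < (e y : ℕ)) (x : M) :
    zR R x ↔ (e x : ℕ) = 0 := by
  unfold zR
  simp only [hlt]
  constructor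
  · intro h
    by_contra h0
    obtain ⟨y, hy⟩ := ex_el e (a := 0) (by have := (e x).is_lt; omega)
    exact h y (by omega)
  · intro h b; omega

lemma sR_iff (hlt : ∀ x y, lR R x y ↔ (e x : ℕ) < (e y : ℕ)) (x y : M) :
    sR R x y ↔ (e y : ℕ) = (e x : ℕ) + 1 := by
  unfold sR
  simp only [hlt]
  constructor
  · rintro ⟨h1, h2⟩
    by_contra h0
    have := (e y).is_lt
    obtain ⟨c, hc⟩ := ex_el e (a := (e x : ℕ) + 1) (by omega)
    exact h2 c ⟨by omega, by omega⟩
  · intro h
    exact ⟨by omega, fun c hc => by omega⟩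

lemma Ax.st (hA : Ax R) (hlt : ∀ x y, lR R x y ↔ (e x : ℕ) < (e y : ℕ)) : St R e := by
  have hadd : ∀ (N : ℕ) (x y z : M), (e y : ℕ) = N →
      (aR R x y z ↔ (e x : ℕ) + (e y : ℕ) = (e z : ℕ)) := by
    intro N
    induction N with
    | zero =>
      intro x y z hy
      rw [hA.add0 x y z ((zR_iff hlt y).2 hy), hy, add_zero]
      exact ⟨fun h => by rw [h], fun h => el_eq h⟩
    | succ N ih =>
      intro x y z hy
      obtain ⟨y', hy'⟩ := ex_el e (a := N) (by have := (e y).is_lt; omega)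
      rw [hA.add1 x y' y z ((sR_iff hlt y' y).2 (by omega))]
      simp only [ih x y' _ hy', sR_iff hlt]
      constructor
      · rintro ⟨w, h1, h2⟩; omega
      · intro h
        have := (e z).is_lt
        obtain ⟨w, hw⟩ := ex_el e (a := (e x : ℕ) + (e y' : ℕ)) (by omega)
        exact ⟨w, hw.symm, by omega⟩
  refine ⟨fun x y z => hadd _ x y z rfl, ?_⟩
  have hmul : ∀ (N : ℕ) (x y z : M), (e y : ℕ) = N →
      (mR R x y z ↔ (e x : ℕ) * (e y : ℕ) = (e z : ℕ)) := by
    intro N
    induction N with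
    | zero =>
      intro x y z hy
      rw [hA.mul0 x y z ((zR_iff hlt y).2 hy), hy, mul_zero, zR_iff hlt, eq_comm]
    | succ N ih =>
      intro x y z hy
      obtain ⟨y', hy'⟩ := ex_el e (a := N) (by have := (e y).is_lt; omega)
      have hyy : (e y : ℕ) = (e y' : ℕ) + 1 := by omega
      rw [hA.mul1 x y' y z ((sR_iff hlt y' y).2 hyy)]
      simp only [ih x y' _ hy', hadd _ _ _ _ rfl, hyy, mul_add, mul_one]
      constructor
      · rintro ⟨w, h1, h2⟩; omega
      · intro h
        have := (e z).is_lt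
        obtain ⟨w, hw⟩ := ex_el e (a := (e x : ℕ) * (e y' : ℕ)) (by omega)
        exact ⟨w, hw.symm, by omega⟩
  exact fun x y z => hmul _ x y z rfl

lemma St.lt (h : St R e) (x y : M) : lR R x y ↔ (e x : ℕ) < (e y : ℕ) := by
  unfold lR
  simp only [h.add]
  constructor
  · rintro ⟨h1, z, h2⟩
    have : (e x : ℕ) ≠ (e y : ℕ) := fun h3 => h1 (el_eq h3)
    omega
  · intro h3
    have := (e y).is_lt
    obtain ⟨z, hz⟩ := ex_el e (a := (e y : ℕ) - (e x : ℕ)) (by omega)
    exact ⟨fun h4 => by rw [h4] at h3; omega, z, by omega⟩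

lemma St.ax (h : St R e) : Ax R := by
  have hlt := h.lt
  refine ⟨?_, ?_, ?_, ?_, ?_, ?_⟩
  · intro x y z h1 h2
    rw [hlt] at *
    omega
  · intro x y
    rw [hlt, hlt]
    rcases Nat.lt_trichotomy (e x : ℕ) (e y : ℕ) with h1 | h1 | h1
    · exact Or.inl h1
    · exact Or.inr (Or.inl (el_eq h1))
    · exact Or.inr (Or.inr h1)
  · intro x y z hy
    rw [zR_iff hlt] at hy
    rw [h.add, hy, add_zero]
    exact ⟨fun h => el_eq h, fun h => by rw [h]⟩
  · intro x y y' z hy
    rw [sR_iff hlt] at hy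
    simp only [h.add, sR_iff hlt, hy]
    constructor
    · intro h1
      have := (e z).is_lt
      obtain ⟨w, hw⟩ := ex_el e (a := (e x : ℕ) + (e y : ℕ)) (by omega)
      exact ⟨w, hw.symm, by omega⟩
    · rintro ⟨w, h1, h2⟩; omega
  · intro x y z hy
    rw [zR_iff hlt] at hy ⊢
    rw [h.mul, hy, mul_zero, eq_comm]
  · intro x y y' z hy
    rw [sR_iff hlt] at hy
    simp only [h.add, h.mul, hy, mul_add, mul_one]
    constructor
    · intro h1
      have := (e z).is_lt
      obtain ⟨w, hw⟩ := ex_el e (a := (e x : ℕ) * (e y : ℕ)) (by omega)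
      exact ⟨w, hw.symm, by omega⟩
    · rintro ⟨w, h1, h2⟩; omega

/-- the axioms characterise the initial segments -/
lemma Ax.exists_equiv [Fintype M] (hA : Ax R) (hc : Fintype.card M = n) :
    ∃ e : M ≃ Fin n, St R e := by
  classical
  have hSTO : IsStrictTotalOrder M (lR R) :=
    { trichotomous := fun x y hxy hyx => by
        rcases hA.total x y with h | h | h
        · exact absurd h hxy
        · exact h
        · exact absurd h hyx
      irrefl := fun x h => h.1 rfl
      trans := hA.trans }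
  let LO : LinearOrder M := linearOrderOfSTO (lR R)
  let e0 : Fin n ≃o M := monoEquivOfFin M hc
  refine ⟨e0.symm.toEquiv, hA.st (fun x y => ?_)⟩
  exact (e0.symm.lt_iff_lt (x := x) (y := y)).symm

end Ax

/-! ### Definability of the axioms -/

section Def

variable {α : Type}

lemma El.inl {f : ∀ (M : Type), (α → M) → M} (h : El α f) :
    El (α ⊕ Unit) (fun M v => f M (v ∘ Sum.inl)) := by
  obtain ⟨a, ha⟩ := h
  exact ⟨Sum.inl a, fun M v => ha M _⟩

lemma El.inr : El (α ⊕ Unit) (fun _ v => v (Sum.inr ())) := ⟨Sum.inr (), fun _ _ => rfl⟩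

abbrev FB (α : Type) (P : ∀ (M : Type), Interp Bool (fun _ => 3) M → (α → M) → Prop) : Prop :=
  FD Bool (fun _ => 3) α P

lemma rel_FD (s : Bool) {f g h : ∀ (M : Type), (α → M) → M} (hf : El α f) (hg : El α g)
    (hh : El α h) : FB α (fun M R v => R s ![f M v, g M v, h M v]) := by
  obtain ⟨a, ha⟩ := hf
  obtain ⟨b, hb⟩ := hg
  obtain ⟨c, hc⟩ := hh
  refine FD.rel (ar := fun _ : Bool => 3) s ⟨![a, b, c], fun M v => ?_⟩
  beta_reduce
  rw [ha, hb, hc]
  funext i
  fin_cases i <;> rfl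

lemma aR_FD {f g h : ∀ (M : Type), (α → M) → M} (hf : El α f) (hg : El α g)
    (hh : El α h) : FB α (fun M R v => aR R (f M v) (g M v) (h M v)) := rel_FD true hf hg hh

lemma mR_FD {f g h : ∀ (M : Type), (α → M) → M} (hf : El α f) (hg : El α g)
    (hh : El α h) : FB α (fun M R v => mR R (f M v) (g M v) (h M v)) := rel_FD false hf hg hh

lemma lR_FD {f g : ∀ (M : Type), (α → M) → M} (hf : El α f) (hg : El α g) :
    FB α (fun M R v => lR R (f M v) (g M v)) :=
  FD.and (FD.not (FD.eq hf hg)) (FD.ex1 (aR_FD (El.inl hf) El.inr (El.inl hg)))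

lemma zR_FD {f : ∀ (M : Type), (α → M) → M} (hf : El α f) :
    FB α (fun M R v => zR R (f M v)) :=
  FD.all1 (FD.not (lR_FD El.inr (El.inl hf)))

lemma sR_FD {f g : ∀ (M : Type), (α → M) → M} (hf : El α f) (hg : El α g) :
    FB α (fun M R v => sR R (f M v) (g M v)) :=
  FD.and (lR_FD hf hg) (FD.all1 (FD.not (FD.and (lR_FD (El.inl hf) El.inr)
    (lR_FD El.inr (El.inl hg)))))

lemma Ax_FD : FB (Fin 0) (fun _ R _ => Ax R) := by
  have h1 : FB (Fin 0) (fun M R _ => ∀ x y z : M, lR R x y → lR R y z → lR R x z) :=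
    FD.all1 (FD.all1 (FD.all1 (FD.imp (lR_FD (El.var _) (El.var _))
      (FD.imp (lR_FD (El.var _) (El.var _)) (lR_FD (El.var _) (El.var _))))))
  have h2 : FB (Fin 0) (fun M R _ => ∀ x y : M, lR R x y ∨ x = y ∨ lR R y x) :=
    FD.all1 (FD.all1 (FD.or (lR_FD (El.var _) (El.var _))
      (FD.or (FD.eq (El.var _) (El.var _)) (lR_FD (El.var _) (El.var _)))))
  have h3 : FB (Fin 0) (fun M R _ => ∀ x y z : M, zR R y → (aR R x y z ↔ x = z)) :=
    FD.all1 (FD.all1 (FD.all1 (FD.imp (zR_FD (El.var _))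
      (FD.iff (aR_FD (El.var _) (El.var _) (El.var _)) (FD.eq (El.var _) (El.var _))))))
  have h4 : FB (Fin 0) (fun M R _ => ∀ x y y' z : M, sR R y y' →
      (aR R x y' z ↔ ∃ w, aR R x y w ∧ sR R w z)) :=
    FD.all1 (FD.all1 (FD.all1 (FD.all1 (FD.imp (sR_FD (El.var _) (El.var _))
      (FD.iff (aR_FD (El.var _) (El.var _) (El.var _))
        (FD.ex1 (FD.and (aR_FD (El.var _) (El.var _) (El.var _))
          (sR_FD (El.var _) (El.var _)))))))))
  have h5 : FB (Fin 0) (fun M R _ => ∀ x y z : M, zR R y → (mR R x y z ↔ zR R z)) :=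
    FD.all1 (FD.all1 (FD.all1 (FD.imp (zR_FD (El.var _))
      (FD.iff (mR_FD (El.var _) (El.var _) (El.var _)) (zR_FD (El.var _))))))
  have h6 : FB (Fin 0) (fun M R _ => ∀ x y y' z : M, sR R y y' →
      (mR R x y' z ↔ ∃ w, mR R x y w ∧ aR R w x z)) :=
    FD.all1 (FD.all1 (FD.all1 (FD.all1 (FD.imp (sR_FD (El.var _) (El.var _))
      (FD.iff (mR_FD (El.var _) (El.var _) (El.var _))
        (FD.ex1 (FD.and (mR_FD (El.var _) (El.var _) (El.var _))
          (aR_FD (El.var _) (El.var _) (El.var _)))))))))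
  refine (h1.and (h2.and (h3.and (h4.and (h5.and h6))))).congr (fun M R v => ?_)
  constructor
  · rintro ⟨a1, a2, a3, a4, a5, a6⟩
    exact ⟨a1, a2, a3, a4, a5, a6⟩
  · rintro ⟨a1, a2, a3, a4, a5, a6⟩
    exact ⟨a1, a2, a3, a4, a5, a6⟩

end Def

lemma arI_st (n : ℕ) : St (arI n) (Equiv.refl (Fin n)) :=
  ⟨fun _ _ _ => Iff.rfl, fun _ _ _ => Iff.rfl⟩

lemma vec3 {M : Type} (w : Fin 3 → M) : w = ![w 0, w 1, w 2] := by
  funext i
  fin_cases i <;> rfl

lemma St.rel {M : Type} {n : ℕ} {R : Interp Bool (fun _ => 3) M} {e : M ≃ Fin n} (h : St R e)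
    (s : Bool) (w : Fin 3 → M) : R s w ↔ arI n s (e ∘ w) := by
  cases s with
  | true =>
    have h1 := h.add (w 0) (w 1) (w 2)
    unfold aR at h1
    rw [← vec3 w] at h1
    exact h1
  | false =>
    have h1 := h.mul (w 0) (w 1) (w 2)
    unfold mR at h1
    rw [← vec3 w] at h1
    exact h1

/-- T2b -/
theorem t_arith : StmtArith := by
  rintro s A ⟨φ, hA⟩
  obtain ⟨ax, hax⟩ := Ax_FD
  refine ⟨ArL, inferInstance, inferInstance, .and (.fo ax) φ, ?_⟩
  rw [hA]
  ext n
  refine and_congr Iff.rfl ?_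
  constructor
  · intro h
    refine ⟨Fin n, mkS (arI n), inferInstance, Fintype.card_fin n, ?_, h⟩
    exact (hax (Fin n) (arI n) Fin.elim0).2 (arI_st n).ax
  · rintro ⟨M, T, F, hc, h1, h2⟩
    have hT := structure_eq T
    rw [hT] at h1 h2
    have h3 := (hax M _ Fin.elim0).1 h1
    obtain ⟨e, he⟩ := h3.exists_equiv hc
    have h4 := (holds_transport φ e _ (arI n) he.rel (s n) Fin.elim0 Fin.elim0).1 h2
    have e1 : e ∘ (Fin.elim0 : Fin 0 → M) = Fin.elim0 := by funext i; exact i.elim0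
    have e2 : (fun j => ((Fin.elim0 : Fin 0 → Finset M) j).map e.toEmbedding) = Fin.elim0 := by
      funext i; exact i.elim0
    rw [e1, e2] at h4
    exact h4

end Pool.Agent.Helper12.SS
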