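import Pool.Agent.Helper12.SS.AForm

/-!
# The diagonal set against advice: semantics
-/

set_option autoImplicit false

namespace Pool.Agent.Helper12.SS

open FirstOrder Pool.Agent.Helper20.Spectra Pool.Agent.Helper14.SS

/-- admissible parameters -/
structure Par (n b B L l₀ μ e : ℕ) : Prop where
  ctx : Ctx n b B L
  four : 4 ≤ B
  eB : e ≤ B
  three : 3 ≤ L
  l : l₀ ≤ L
  M : 4 * μ ≤ L
  μB : 4 * μ < B
  l0 : (2 * (μ + 7) + 1) * μ + 1 = l₀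
  pow : (B ^ l₀ - 1 + 2) ^ e ≤ B ^ L

lemma Par.le {n b B L l₀ μ e : ℕ} (h : Par n b B L l₀ μ e) : μ ≤ l₀ := by
  rw [← h.l0]
  have : 1 * μ ≤ (2 * (μ + 7) + 1) * μ := Nat.mul_le_mul_right _ (by omega)
  omega

lemma par_of {n b B C μ l₀ L e x : ℕ} (hn : n = C * C + x + 1) (hC : B * B + μ = C)
    (hl : (2 * (μ + 7) + 1) * μ + 1 = l₀) (hL : (e + 1) * (l₀ + 1) = L)
    (hU : (L + 1) * L < B) (he : e + 3 < B) (hb : (L + 1) * L ≤ b) (hL4 : 4 * μ ≤ L)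
    (hL3 : 3 ≤ L) : Par n b B L l₀ μ e := by
  have hLU : L ≤ (L + 1) * L := by nlinarith
  have hl0L : l₀ + 1 ≤ L := by
    rw [← hL]
    have : 1 * (l₀ + 1) ≤ (e + 1) * (l₀ + 1) := Nat.mul_le_mul_right _ (by omega)
    omega
  have hBB : B * B ≤ C * C := by
    have h1 : B ≤ C := by rw [← hC]; nlinarith
    exact Nat.mul_le_mul h1 h1
  refine ⟨⟨by omega, by omega, hb, ?_⟩, by omega, by omega, hL3, by omega, hL4, by omega, hl, ?_⟩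
  · have : (L + 1) * L * B ≤ B * B := Nat.mul_le_mul_right _ hU.le
    omega
  · have h1 : 1 ≤ B ^ l₀ := Nat.one_le_pow _ _ (by omega)
    have h2 : B ^ l₀ - 1 + 2 ≤ B ^ (l₀ + 1) := by
      rw [pow_succ]
      have : B ^ l₀ * 2 ≤ B ^ l₀ * B := Nat.mul_le_mul_left _ (by omega)
      omega
    calc (B ^ l₀ - 1 + 2) ^ e ≤ (B ^ (l₀ + 1)) ^ e := Nat.pow_le_pow_left h2 _
      _ = B ^ ((l₀ + 1) * e) := by rw [← pow_mul]
      _ ≤ B ^ L := by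
        apply Nat.pow_le_pow_right (by omega)
        rw [← hL]
        nlinarith

lemma px_lt {n b B L l₀ μ e : ℕ} (h : Par n b B L l₀ μ e) {k β x : ℕ} (hk : k < μ)
    (hβ : β < B ^ μ) (hx : x < B * B) : px B μ β x ^ (k + 1) < B ^ l₀ ∧ px B μ β x < B ^ l₀ := by
  have hB := h.four
  have hμ := h.μB
  have h1 : px B μ β x ^ (k + 1) ≤ B ^ ((2 * (μ + 7) + 1) * (k + 1)) :=
    ppow_le hB (by omega) hx.le hβ.le
  have h2 : B ^ ((2 * (μ + 7) + 1) * (k + 1)) < B ^ l₀ := by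
    apply Nat.pow_lt_pow_right (by omega)
    rw [← h.l0]
    have : (2 * (μ + 7) + 1) * (k + 1) ≤ (2 * (μ + 7) + 1) * μ := Nat.mul_le_mul_left _ hk
    omega
  have h3 : 1 ≤ px B μ β x := by unfold px nx; omega
  have h4 : px B μ β x ≤ px B μ β x ^ (k + 1) := Nat.le_self_pow (by omega) _
  exact ⟨by omega, by omega⟩

lemma behP_iff' {n b e l₀ μ : ℕ} {B L : Fin n} {B' L' : ℕ} (hB' : (B : ℕ) = B')
    (hL' : (L : ℕ) = L') {P1 : Pd 2 5} {P3 : Pd 2 3} {E : Set ℕ}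
    (h : Par n b B' L' l₀ μ e) (h1 : Ev P1 e S1) (h3 : Ev P3 e (S3 E))
    {k t β α i d : ℕ} (hk : k < μ) (ht : t < B' ^ μ) (hβ : β < B' ^ μ)
    (hα : α < B' ^ μ) (hi : i < 4 * μ) (hd : d < B') {T Bt A : Finset (Fin n)}
    (hT : Cd B' L' 0 T t) (hBt : Cd B' L' 0 Bt β) (hA : Cd B' L' 0 A α) :
    BehP P1 P3 b B L l₀ μ i d k T Bt A ↔ Beh E B' μ k t β α (i * B' + d) := by
  unfold BehP
  rw [hB', hL']
  have hB4 := h.four
  have hμB := h.μB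
  have hB : 1 ≤ B' := by omega
  have hl := h.l
  have hμl := h.le
  have hl2 : 2 ≤ l₀ := by
    rw [← h.l0]
    have : 1 * 1 ≤ (2 * (μ + 7) + 1) * μ := Nat.mul_le_mul (by omega) (by omega)
    omega
  have hpB : 1 ≤ B' ^ l₀ := Nat.one_le_pow _ _ hB
  have hμpow : B' ^ μ ≤ B' ^ l₀ := Nat.pow_le_pow_right hB hμl
  have hl0L : B' ^ l₀ ≤ B' ^ L' := Nat.pow_le_pow_right hB hl
  have hx : i * B' + d < B' * B' := by
    calc i * B' + d < i * B' + B' := by omega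
      _ = (i + 1) * B' := by ring
      _ ≤ B' * B' := Nat.mul_le_mul_right _ (by omega)
  have hBB : B' * B' ≤ B' ^ l₀ := by
    calc B' * B' = B' ^ 2 := by ring
      _ ≤ B' ^ l₀ := Nat.pow_le_pow_right hB hl2
  have hB1 : B' < B' * B' := by nlinarith
  obtain ⟨q1, q2⟩ := px_lt h hk hβ hx
  have hkL : k ≤ L' := by have := h.M; omega
  have ev1 : ∀ {P Bc Mc Xc : Finset (Fin n)} {p : ℕ}, Cd B' L' 0 P p → Cd B' L' 0 Bc B' →
      Cd B' L' 0 Mc μ → Cd B' L' 0 Xc (i * B' + d) → p < B' ^ l₀ →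
      (P1 n b ![B, L] ![P, Bc, Mc, Xc, Bt] ↔ p = px B' μ β (i * B' + d)) := by
    intro P Bc Mc Xc p c1 c2 c3 c4 hp
    refine (h1 n b ![B, L] B' L' hB' hL' (by omega) h.eB h.ctx.sq h.ctx.card
      h.ctx.room ![P, Bc, Mc, Xc, Bt] ![p, B', μ, i * B' + d, β] ?_ (B' ^ l₀ - 1) ?_
      h.pow).trans Iff.rfl
    · intro j
      fin_cases j
      · exact c1
      · exact c2
      · exact c3
      · exact c4
      · exact hBt
    · intro j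
      fin_cases j
      · show p ≤ _
        omega
      · show B' ≤ _
        omega
      · show μ ≤ _
        omega
      · show i * B' + d ≤ _
        omega
      · show β ≤ _
        omega
  have ev3 : ∀ {Y : Finset (Fin n)} {y : ℕ}, Cd B' L' 0 Y y → y < B' ^ l₀ →
      (P3 n b ![B, L] ![Y, T, A] ↔
        (ux y t + α) * (ux y t + α) + ux y t ∈ E) := by
    intro Y y c1 hy
    refine (h3 n b ![B, L] B' L' hB' hL' (by omega) h.eB h.ctx.sq h.ctx.card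
      h.ctx.room ![Y, T, A] ![y, t, α] ?_ (B' ^ l₀ - 1) ?_ h.pow).trans Iff.rfl
    · intro j
      fin_cases j
      · exact c1
      · exact hT
      · exact hA
    · intro j
      fin_cases j
      · show y ≤ _
        omega
      · show t ≤ _
        omega
      · show α ≤ _
        omega
  constructor
  · rintro ⟨Xc, _, Bc, _, Mc, _, P, _, Y, _, n1, n2, n3, n4, n5, d1, d2, d3, z1, z2, pw, p1, p3⟩
    obtain ⟨xc, hXc⟩ := (t_num n B' L' 0 Xc hB).1 n1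
    obtain ⟨bc, hBc⟩ := (t_num n B' L' 0 Bc hB).1 n2
    obtain ⟨mc, hMc⟩ := (t_num n B' L' 0 Mc hB).1 n3
    obtain ⟨p, hP⟩ := (t_num n B' L' 0 P hB).1 n4
    obtain ⟨y, hY⟩ := (t_num n B' L' 0 Y hB).1 n5
    rw [dig3_iff h.three hd (by omega) (by omega) hXc] at d1
    rw [dig3_iff h.three (by omega) (by omega) (by omega) hBc] at d2
    rw [dig3_iff h.three (by omega) (by omega) (by omega) hMc] at d3
    rw [hz_iff hB hl hP] at z1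
    rw [hz_iff hB hl hY] at z2
    have e1 : xc = i * B' + d := by rw [d1]; ring
    have e2 : bc = B' := by rw [d2]; ring
    have e3 : mc = μ := by rw [d3]; ring
    rw [e1] at hXc
    rw [e2] at hBc
    rw [e3] at hMc
    rw [ev1 hP hBc hMc hXc z1] at p1
    have hp1 : 1 ≤ p := by rw [p1]; unfold px nx; omega
    rw [powP_iff h.ctx hkL hp1 hP hY] at pw
    rw [ev3 hY z2, pw, p1] at p3
    exact p3
  · intro hbeh
    obtain ⟨Xc, x1, x2⟩ := ex_code t_exCd h.ctx (x := i * B' + d) (by omega)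
    obtain ⟨Bc, b1, b2⟩ := ex_code t_exCd h.ctx (x := B') (by omega)
    obtain ⟨Mc, m1, m2⟩ := ex_code t_exCd h.ctx (x := μ) (by omega)
    obtain ⟨P, c1, c2⟩ := ex_code t_exCd h.ctx (x := px B' μ β (i * B' + d)) (by omega)
    obtain ⟨Y, y1, y2⟩ := ex_code t_exCd h.ctx (x := px B' μ β (i * B' + d) ^ (k + 1))
      (by omega)
    have hp1 : 1 ≤ px B' μ β (i * B' + d) := by unfold px nx; omega
    refine ⟨Xc, x1, Bc, b1, Mc, m1, P, c1, Y, y1, (t_num n B' L' 0 _ hB).2 ⟨_, x2⟩,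
      (t_num n B' L' 0 _ hB).2 ⟨_, b2⟩, (t_num n B' L' 0 _ hB).2 ⟨_, m2⟩,
      (t_num n B' L' 0 _ hB).2 ⟨_, c2⟩, (t_num n B' L' 0 _ hB).2 ⟨_, y2⟩, ?_, ?_, ?_, ?_, ?_,
      ?_, ?_, ?_⟩
    · rw [dig3_iff h.three hd (by omega) (by omega) x2]; ring
    · rw [dig3_iff h.three (by omega) (by omega) (by omega) b2]; ring
    · rw [dig3_iff h.three (by omega) (by omega) (by omega) m2]; ring
    · rw [hz_iff hB hl c2]; exact q2
    · rw [hz_iff hB hl y2]; exact q1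
    · rw [powP_iff h.ctx hkL hp1 c2 y2]
    · rw [ev1 c2 b2 m2 x2 q2]
    · rw [ev3 y2 q1]
      exact hbeh

lemma tauP_iff {n b e : ℕ} {B L l₀ μ M : Fin n} {P1 : Pd 2 5} {P3 : Pd 2 3} {E : Set ℕ}
    (h : Par n b (B : ℕ) (L : ℕ) (l₀ : ℕ) (μ : ℕ) e) (hM : 4 * (μ : ℕ) = (M : ℕ))
    (h1 : Ev P1 e S1) (h3 : Ev P3 e (S3 E)) {Z : Finset (Fin n)} {z : ℕ}
    (hZ : Cd (B : ℕ) (L : ℕ) 0 Z z) :
    TauP P1 P3 b B L l₀ μ M Z ↔ ∃ k, k < (μ : ℕ) ∧ ∃ t, t < (B : ℕ) ^ (μ : ℕ) ∧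
      ∃ β, β < (B : ℕ) ^ (μ : ℕ) ∧ ∃ α, α < (B : ℕ) ^ (μ : ℕ) ∧ Mt E (B : ℕ) (μ : ℕ) z k t β α := by
  have hB : 1 ≤ (B : ℕ) := by have := h.four; omega
  have hμL : (μ : ℕ) ≤ (L : ℕ) := by have := h.M; omega
  have hpow : (B : ℕ) ^ (μ : ℕ) ≤ (B : ℕ) ^ (L : ℕ) := Nat.pow_le_pow_right hB hμL
  have key : ∀ {k t β α : ℕ} {T Bt A : Finset (Fin n)}, k < (μ : ℕ) → t < (B : ℕ) ^ (μ : ℕ) →
      β < (B : ℕ) ^ (μ : ℕ) → α < (B : ℕ) ^ (μ : ℕ) → Cd (B : ℕ) (L : ℕ) 0 T t →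
      Cd (B : ℕ) (L : ℕ) 0 Bt β → Cd (B : ℕ) (L : ℕ) 0 A α →
      ((∀ i, i < (M : ℕ) → ∀ d, d < (B : ℕ) → (inV Z (i * (B : ℕ) + d) ↔
        BehP P1 P3 b B L (l₀ : ℕ) (μ : ℕ) i d k T Bt A)) ↔
        Mt E (B : ℕ) (μ : ℕ) z k t β α) := by
    intro k t β α T Bt A hk ht hβ hα hT hBt hA
    unfold Mt
    rw [← hM]
    apply forall_congr'
    intro i
    apply forall_congr'
    intro hi
    apply forall_congr'
    intro d
    apply forall_congr'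
    intro hd
    have e1 := hZ.2 i (by have := h.M; omega) d hd
    rw [zero_add] at e1
    rw [e1, behP_iff' rfl rfl h h1 h3 hk ht hβ hα hi hd hT hBt hA]
  constructor
  · rintro ⟨k, hk, T, _, Bt, _, A, _, n1, n2, n3, z1, z2, z3, hm⟩
    obtain ⟨t, hT⟩ := (t_num n _ _ 0 T hB).1 n1
    obtain ⟨β, hBt⟩ := (t_num n _ _ 0 Bt hB).1 n2
    obtain ⟨α, hA⟩ := (t_num n _ _ 0 A hB).1 n3
    rw [hz_iff hB hμL hT] at z1
    rw [hz_iff hB hμL hBt] at z2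
    rw [hz_iff hB hμL hA] at z3
    exact ⟨k, hk, t, z1, β, z2, α, z3, (key hk z1 z2 z3 hT hBt hA).1 hm⟩
  · rintro ⟨k, hk, t, ht, β, hβ, α, hα, hm⟩
    obtain ⟨T, c1, hT⟩ := ex_code t_exCd h.ctx (x := t) (by omega)
    obtain ⟨Bt, c2, hBt⟩ := ex_code t_exCd h.ctx (x := β) (by omega)
    obtain ⟨A, c3, hA⟩ := ex_code t_exCd h.ctx (x := α) (by omega)
    exact ⟨k, hk, T, c1, Bt, c2, A, c3, (t_num n _ _ 0 _ hB).2 ⟨_, hT⟩,
      (t_num n _ _ 0 _ hB).2 ⟨_, hBt⟩, (t_num n _ _ 0 _ hB).2 ⟨_, hA⟩,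
      (hz_iff hB hμL hT).2 ht, (hz_iff hB hμL hBt).2 hβ, (hz_iff hB hμL hA).2 hα,
      (key hk ht hβ hα hT hBt hA).2 hm⟩

lemma goodP_iff {n b e : ℕ} {B L l₀ μ M : Fin n} {P1 : Pd 2 5} {P3 : Pd 2 3} {E : Set ℕ}
    (h : Par n b (B : ℕ) (L : ℕ) (l₀ : ℕ) (μ : ℕ) e) (hM : 4 * (μ : ℕ) = (M : ℕ))
    (h1 : Ev P1 e S1) (h3 : Ev P3 e (S3 E)) {Z : Finset (Fin n)} {z : ℕ}
    (hZ : Cd (B : ℕ) (L : ℕ) 0 Z z) :
    GoodP P1 P3 b B L l₀ μ M Z ↔ Un E (B : ℕ) (μ : ℕ) z := by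
  have hB : 1 ≤ (B : ℕ) := by have := h.four; omega
  unfold GoodP Un
  rw [tauP_iff h hM h1 h3 hZ, hz_iff hB (by have := h.M; omega) hZ, ← hM]
  constructor
  · rintro ⟨_, h2⟩; exact h2
  · intro h2; exact ⟨(t_num n _ _ 0 _ hB).2 ⟨_, hZ⟩, h2⟩

lemma luP_iff {n b e : ℕ} {B L l₀ μ M : Fin n} {P1 : Pd 2 5} {P3 : Pd 2 3} {E : Set ℕ}
    (h : Par n b (B : ℕ) (L : ℕ) (l₀ : ℕ) (μ : ℕ) e) (hM : 4 * (μ : ℕ) = (M : ℕ))
    (h1 : Ev P1 e S1) (h3 : Ev P3 e (S3 E)) {Z : Finset (Fin n)} {z : ℕ}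
    (hZ : Cd (B : ℕ) (L : ℕ) 0 Z z) :
    LuP P1 P3 b B L l₀ μ M Z ↔ Lu E (B : ℕ) (μ : ℕ) z := by
  have hB : 1 ≤ (B : ℕ) := by have := h.four; omega
  unfold LuP Lu
  rw [goodP_iff h hM h1 h3 hZ]
  apply and_congr_right
  intro _
  constructor
  · intro h2 z' hz' hun
    apply h2
    obtain ⟨Z', c1, hZ'⟩ := ex_code t_exCd h.ctx (x := z') (by have := hZ.1; omega)
    exact ⟨Z', c1, (goodP_iff h hM h1 h3 hZ').2 hun, (ltP_iff h.ctx hZ' hZ).2 hz'⟩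
  · rintro h2 ⟨Z', _, g, l⟩
    obtain ⟨z', hZ'⟩ := (t_num n _ _ 0 Z' hB).1 g.1
    rw [goodP_iff h hM h1 h3 hZ'] at g
    rw [ltP_iff h.ctx hZ' hZ] at l
    exact h2 z' l g

/-- the diagonal predicate on the block of `(B, μ)` -/
lemma DpA_iff {P1 : Pd 2 5} {P3 : Pd 2 3} {e : ℕ} {E : Set ℕ} (h1 : Ev P1 e S1)
    (h3 : Ev P3 e (S3 E)) {n b B C μ l₀ L i d z : ℕ} (hn : n = C * C + (i * B + d) + 1)
    (hC : B * B + μ = C) (hl : (2 * (μ + 7) + 1) * μ + 1 = l₀) (hL : (e + 1) * (l₀ + 1) = L)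
    (hU : (L + 1) * L < B) (he : e + 3 < B) (hb : (L + 1) * L ≤ b)
    (hi : i < 4 * μ) (hd : d < B) (hz : Lu E B μ z) (v : Fin 0 → Fin n)
    (V : Fin 0 → Finset (Fin n)) :
    DpA P1 P3 e n b v V ↔ z / B ^ i % B = d := by
  have hLU : L ≤ (L + 1) * L := by nlinarith
  have hl0L : l₀ + 1 ≤ L := by
    rw [← hL]
    have : 1 * (l₀ + 1) ≤ (e + 1) * (l₀ + 1) := Nat.mul_le_mul_right _ (by omega)
    omega
  have hl15 : 15 * μ + 1 ≤ l₀ := by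
    rw [← hl]
    have : 15 * μ ≤ (2 * (μ + 7) + 1) * μ := Nat.mul_le_mul_right _ (by omega)
    omega
  have hBB : 4 * B ≤ B * B := Nat.mul_le_mul_right _ (by omega)
  have hCC : C * 4 ≤ C * C := Nat.mul_le_mul_left _ (by omega)
  have hBC : B ≤ C := by omega
  have hx : i * B + d < B * B := by
    calc i * B + d < i * B + B := by omega
      _ = (i + 1) * B := by ring
      _ ≤ B * B := Nat.mul_le_mul_right _ (by omega)
  have par : Par n b B L l₀ μ e := par_of hn hC hl hL hU he hb (by omega) (by omega)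
  constructor
  · rintro ⟨B', μ', C', x', M', l', L', U', m₀, i', d', c1, c2, ⟨c3, c3'⟩, c4, ⟨c5, c5'⟩, c6, c7,
      c8, c9, c10, c11, c12, c13, c14, ⟨X, hX, hXU⟩, Z, hZb, hLu, hin⟩
    have hm0 : (m₀ : ℕ) = C * C + (i * B + d) := by
      have h4 := c1 ⟨n - 1, by omega⟩
      have h5 := m₀.is_lt
      simp only at h4
      omega
    rw [hm0] at c2
    obtain ⟨eC, ex⟩ := sq_unique c2 c3 (by omega)
    rw [eC] at c4
    obtain ⟨eB, eμ⟩ := sq_unique (c4.trans hC.symm) c5 (by omega)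
    rw [eμ] at c6 c7
    rw [hl] at c7
    rw [← c7, hL] at c8
    rw [eB, ex] at c12
    rw [eB] at c14
    obtain ⟨ei, ed⟩ := pos_inj c14 hd c12
    have par' : Par n b (B' : ℕ) (L' : ℕ) (l' : ℕ) (μ' : ℕ) e := by
      rw [eB, ← c8, ← c7, eμ]; exact par
    have hM' : 4 * (μ' : ℕ) = (M' : ℕ) := by rw [eμ]; exact c6
    have hB1 : 1 ≤ (B' : ℕ) := by omega
    obtain ⟨z', hZ⟩ := (t_num n (B' : ℕ) (L' : ℕ) 0 Z hB1).1 hLu.1.1
    rw [luP_iff par' hM' h1 h3 hZ, eB, eμ] at hLu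
    have ez := lu_uniq hLu hz
    have h6 := hZ.2 i' (by have := par'.M; omega) d' (by omega)
    rw [zero_add] at h6
    rw [h6, ez, eB, ei, ed] at hin
    exact hin
  · intro hdig
    have hzL : z < B ^ L :=
      lt_of_lt_of_le hz.1.1 (Nat.pow_le_pow_right (by omega) (by omega))
    obtain ⟨Z, c1, hZ⟩ := ex_code t_exCd par.ctx hzL
    refine ⟨⟨B, by omega⟩, ⟨μ, by omega⟩, ⟨C, by omega⟩, ⟨i * B + d, by omega⟩,
      ⟨4 * μ, by omega⟩, ⟨l₀, by omega⟩, ⟨L, by omega⟩, ⟨(L + 1) * L, by omega⟩,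
      ⟨n - 1, by omega⟩, ⟨i, by omega⟩, ⟨d, by omega⟩, ?_, ?_, ⟨?_, ?_⟩, hC, ⟨?_, ?_⟩, rfl, hl, hL,
      rfl, hU, he, rfl, hi, hd, ?_, Z, c1, ?_, ?_⟩
    · intro y
      have := y.is_lt
      show ¬ (n - 1 < (y : ℕ))
      omega
    · show C * C + (i * B + d) = n - 1
      omega
    · show i * B + d < 2 * C + 1
      omega
    · show 2 * C + 1 < n
      omega
    · show μ < 2 * B + 1
      omega
    · show 2 * B + 1 < n
      omega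
    · obtain ⟨X, g1, g2⟩ := ex_initial (n := n) (U := (L + 1) * L) (by omega)
      exact ⟨X, g1.trans hb, g2⟩
    · exact (luP_iff (B := ⟨B, by omega⟩) (L := ⟨L, by omega⟩) (l₀ := ⟨l₀, by omega⟩)
        (μ := ⟨μ, by omega⟩) (M := ⟨4 * μ, by omega⟩) par rfl h1 h3 hZ).2 hz
    · have h6 := hZ.2 i (by omega) d hd
      rw [zero_add] at h6
      exact h6.2 hdig

theorem aDiag : StmtADiag := by
  intro hQ
  obtain ⟨E, c, hE, hEU⟩ := hQ _ univSizes_spectrum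
  obtain ⟨e1, P1, hP1, hv1⟩ := trans t_num t_exCd t_add t_mul 5 S1 rud_S1
  obtain ⟨e3, P3, hP3, hv3⟩ := trans t_num t_exCd t_add t_mul 3 (S3 E) (rud_S3 hE)
  obtain ⟨e, he⟩ : ∃ e, e = e1 + e3 := ⟨_, rfl⟩
  have g1 : Ev P1 e S1 := Ev.mono hv1 (by omega)
  have g3 : Ev P3 e (S3 E) := Ev.mono hv3 (by omega)
  obtain ⟨φ, hφ⟩ := NS_DpA hP1 hP3 e
  refine ⟨φ, fun s hs hu hD => ?_⟩
  obtain ⟨E', c', hE', hX⟩ := hD
  -- `E'` without zero is a spectrum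
  have hE0 : IsSpectrum {m | 1 ≤ m ∧ m ∈ E'} := by
    have h1 := hE'.preimage Polynomial.X
    have h2 : IsRudimentary {m | 1 ≤ m ∧ m ∈ E'} := by
      simpa using h1
    exact h2.isSpectrum (by rintro ⟨h3, _⟩; omega)
  obtain ⟨k, Θ, hΘ⟩ := spectrum_blocks hE0
  obtain ⟨t, rfl⟩ := exists_blk Θ
  have hk : ∀ m, 1 ≤ m → (m ∈ E' ↔ ux (m ^ (k + 1)) t ∈ univSizes) := by
    intro m hm
    have h1 := hΘ m hm
    rw [← mem_univSizes t] at h1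
    have h2 : (m ^ (k + 1) + 2 + t) ^ 2 + t = ux (m ^ (k + 1)) t := by unfold ux; ring
    rw [h2] at h1
    rw [← h1]
    exact ⟨fun h => ⟨hm, h⟩, fun h => h.2⟩
  obtain ⟨μ₀, hμ₀⟩ := adv_tuple hEU hX hk
  obtain ⟨μ, hμ⟩ : ∃ μ, μ = μ₀ + 1 := ⟨_, rfl⟩
  obtain ⟨l₀, hl⟩ : ∃ l₀, (2 * (μ + 7) + 1) * μ + 1 = l₀ := ⟨_, rfl⟩
  obtain ⟨L, hL⟩ : ∃ L, (e + 1) * (l₀ + 1) = L := ⟨_, rfl⟩
  obtain ⟨n₀, hn₀⟩ := hu ((L + 1) * L)
  obtain ⟨B, hB⟩ : ∃ B, B = n₀ + (L + 1) * L + 4 * μ * (8 * (k + 1) + 1) + e + 4 := ⟨_, rfl⟩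
  obtain ⟨C, hC⟩ : ∃ C, B * B + μ = C := ⟨_, rfl⟩
  obtain ⟨z, hz⟩ := exists_lu E (B := B) μ (by omega)
  obtain ⟨hkμ, htB, β, hβ, α, hα, hbeh⟩ := hμ₀ μ (by omega) B (by omega)
  apply hz.1.2
  refine ⟨k, hkμ, t, htB, β, hβ, α, hα, fun i hi d hd => ?_⟩
  have hx : i * B + d < 4 * μ * B := by
    calc i * B + d < i * B + B := by omega
      _ = (i + 1) * B := by ring
      _ ≤ 4 * μ * B := Nat.mul_le_mul_right _ hi
  rw [← hbeh (i * B + d) hx]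
  obtain ⟨n, hn⟩ : ∃ n, n = C * C + (i * B + d) + 1 := ⟨_, rfl⟩
  have hn' : nx B μ (i * B + d) = n := by
    rw [hn]; unfold nx; rw [hC]
  have hBn : B ≤ n := by
    have h1 : B * 1 ≤ B * B := Nat.mul_le_mul_left _ (by omega)
    have h2 : C * 1 ≤ C * C := Nat.mul_le_mul_left _ (by omega)
    omega
  have hb : (L + 1) * L ≤ s n := hn₀.trans (hs (by omega))
  have h5 := DpA_iff g1 g3 hn hC hl hL (by omega) (by omega) hb hi hd hz Fin.elim0 Fin.elim0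
  rw [hn', ← h5, ← hφ]
  exact ⟨fun h => ⟨by omega, h⟩, fun h => h.2⟩

end Pool.Agent.Helper12.SS
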