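import Pool.Agent.Helper12.SS.APow

/-!
# The diagonal set against advice: formulas
-/

set_option autoImplicit false

namespace Pool.Agent.Helper12.SS

open FirstOrder Pool.Agent.Helper20.Spectra Pool.Agent.Helper14.SS

/-- relation for `px`: `(p, B, μ, x, β)` -/
def S1 : Set (Fin 5 → ℕ) := {w | w 0 = px (w 1) (w 2) (w 4) (w 3)}

/-- relation for the universal spectrum: `(y, t, α)` -/
def S3 (E : Set ℕ) : Set (Fin 3 → ℕ) :=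
  {w | (ux (w 0) (w 1) + w 2) * (ux (w 0) (w 1) + w 2) + ux (w 0) (w 1) ∈ E}

lemma rud_S1 : Rud 5 S1 := by
  have hn : Pool.Agent.Helper20.Spectra.IsPoly 5 (fun w => nx (w 1) (w 2) (w 3)) :=
    ((((((IsPoly.var 1).mul (IsPoly.var 1)).add (IsPoly.var 2)).mul
      (((IsPoly.var 1).mul (IsPoly.var 1)).add (IsPoly.var 2))).add (IsPoly.var 3)).add (pc 1))
  have h : RudX (fun x : Empty => x.elim) 5 (fun _ w => w 0 = px (w 1) (w 2) (w 4) (w 3)) :=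
    RudX.eq (IsPoly.var 0) (((hn.add (IsPoly.var 4)).mul (hn.add (IsPoly.var 4))).add hn)
  exact h.toRud

lemma rud_S3 {E : Set ℕ} (hE : IsRudimentary E) : Rud 3 (S3 E) := by
  have hu : Pool.Agent.Helper20.Spectra.IsPoly 3 (fun w => ux (w 0) (w 1)) :=
    (((((IsPoly.var 0).add (pc 2)).add (IsPoly.var 1)).mul
      (((IsPoly.var 0).add (pc 2)).add (IsPoly.var 1))).add (IsPoly.var 1))
  have h : RudX (fun x : Empty => x.elim) 3 (fun _ w =>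
      (ux (w 0) (w 1) + w 2) * (ux (w 0) (w 1) + w 2) + ux (w 0) (w 1) ∈ E) :=
    RudX.mem hE (((hu.add (IsPoly.var 2)).mul (hu.add (IsPoly.var 2))).add hu)
  exact h.toRud

/-- `P` evaluates `S` on coded numbers -/
def Ev {k : ℕ} (P : Pd 2 k) (e : ℕ) (S : Set (Fin k → ℕ)) : Prop :=
  ∀ (n b : ℕ) (w : Fin 2 → Fin n) (B M : ℕ),
    (w 0 : ℕ) = B → (w 1 : ℕ) = M → 2 ≤ B → e ≤ B → B * B ≤ n → (M + 1) * M ≤ b →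
    (M + 1) * M * B ≤ n → ∀ (X : Fin k → Finset (Fin n)) (x : Fin k → ℕ),
      (∀ i, Cd B M 0 (X i) (x i)) → ∀ W, (∀ i, x i ≤ W) → (W + 2) ^ e ≤ B ^ M →
        (P n b w X ↔ x ∈ S)

lemma Ev.mono {k : ℕ} {P : Pd 2 k} {e e' : ℕ} {S : Set (Fin k → ℕ)} (h : Ev P e S)
    (he : e ≤ e') : Ev P e' S := by
  intro n b w B M h1 h2 h3 h4 h5 h6 h7 X x hX W hW h8
  exact h n b w B M h1 h2 h3 (he.trans h4) h5 h6 h7 X x hX W hW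
    ((Nat.pow_le_pow_right (by omega) he).trans h8)

/-- the behaviour at `i * B + d` -/
def BehP (P1 : Pd 2 5) (P3 : Pd 2 3) {n : ℕ} (b : ℕ) (B L : Fin n) (l₀ μ i d k : ℕ)
    (T Bt A : Finset (Fin n)) : Prop :=
  ∃ Xc : Finset (Fin n), Xc.card ≤ b ∧ ∃ Bc : Finset (Fin n), Bc.card ≤ b ∧
  ∃ Mc : Finset (Fin n), Mc.card ≤ b ∧ ∃ P : Finset (Fin n), P.card ≤ b ∧
  ∃ Y : Finset (Fin n), Y.card ≤ b ∧
  (Num (B : ℕ) (L : ℕ) 0 Xc ∧ (Num (B : ℕ) (L : ℕ) 0 Bc ∧ (Num (B : ℕ) (L : ℕ) 0 Mc ∧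
  (Num (B : ℕ) (L : ℕ) 0 P ∧ (Num (B : ℕ) (L : ℕ) 0 Y ∧
  (Dig3 (B : ℕ) (L : ℕ) Xc d i 0 ∧ (Dig3 (B : ℕ) (L : ℕ) Bc 0 1 0 ∧
  (Dig3 (B : ℕ) (L : ℕ) Mc μ 0 0 ∧ (HZ (B : ℕ) (L : ℕ) l₀ P ∧ (HZ (B : ℕ) (L : ℕ) l₀ Y ∧
  (PowP b (B : ℕ) (L : ℕ) k P Y ∧
  (P1 n b ![B, L] ![P, Bc, Mc, Xc, Bt] ∧ P3 n b ![B, L] ![Y, T, A]))))))))))))

/-- some small tuple has the pattern `Z` -/
def TauP (P1 : Pd 2 5) (P3 : Pd 2 3) {n : ℕ} (b : ℕ) (B L l₀ μ M : Fin n)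
    (Z : Finset (Fin n)) : Prop :=
  ∃ k, k < (μ : ℕ) ∧ ∃ T : Finset (Fin n), T.card ≤ b ∧ ∃ Bt : Finset (Fin n), Bt.card ≤ b ∧
  ∃ A : Finset (Fin n), A.card ≤ b ∧
  (Num (B : ℕ) (L : ℕ) 0 T ∧ (Num (B : ℕ) (L : ℕ) 0 Bt ∧ (Num (B : ℕ) (L : ℕ) 0 A ∧
  (HZ (B : ℕ) (L : ℕ) (μ : ℕ) T ∧ (HZ (B : ℕ) (L : ℕ) (μ : ℕ) Bt ∧ (HZ (B : ℕ) (L : ℕ) (μ : ℕ) A ∧
  ∀ i, i < (M : ℕ) → ∀ d, d < (B : ℕ) → (inV Z (i * (B : ℕ) + d) ↔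
    BehP P1 P3 b B L (l₀ : ℕ) (μ : ℕ) i d k T Bt A)))))))

def GoodP (P1 : Pd 2 5) (P3 : Pd 2 3) {n : ℕ} (b : ℕ) (B L l₀ μ M : Fin n)
    (Z : Finset (Fin n)) : Prop :=
  Num (B : ℕ) (L : ℕ) 0 Z ∧ (HZ (B : ℕ) (L : ℕ) (M : ℕ) Z ∧ ¬ TauP P1 P3 b B L l₀ μ M Z)

def LuP (P1 : Pd 2 5) (P3 : Pd 2 3) {n : ℕ} (b : ℕ) (B L l₀ μ M : Fin n)
    (Z : Finset (Fin n)) : Prop :=
  GoodP P1 P3 b B L l₀ μ M Z ∧ ¬ ∃ Z' : Finset (Fin n), Z'.card ≤ b ∧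
    (GoodP P1 P3 b B L l₀ μ M Z' ∧ LtP b (B : ℕ) (L : ℕ) Z' Z)

/-- the diagonal predicate -/
def DpA (P1 : Pd 2 5) (P3 : Pd 2 3) (e : ℕ) : Pd 0 0 := fun n b _ _ =>
  ∃ B μ C x M l₀ L U m₀ i d : Fin n,
    ((∀ y : Fin n, ¬ (m₀ : ℕ) < (y : ℕ)) ∧
    ((C : ℕ) * C + x = (m₀ : ℕ) ∧
    (((x : ℕ) < 2 * (C : ℕ) + 1 ∧ 2 * (C : ℕ) + 1 < n) ∧
    ((B : ℕ) * B + μ = (C : ℕ) ∧
    (((μ : ℕ) < 2 * (B : ℕ) + 1 ∧ 2 * (B : ℕ) + 1 < n) ∧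
    (4 * (μ : ℕ) = (M : ℕ) ∧
    ((2 * ((μ : ℕ) + 7) + 1) * (μ : ℕ) + 1 = (l₀ : ℕ) ∧
    ((e + 1) * ((l₀ : ℕ) + 1) = (L : ℕ) ∧
    (((L : ℕ) + 1) * (L : ℕ) = (U : ℕ) ∧
    ((U : ℕ) < (B : ℕ) ∧
    (e + 3 < (B : ℕ) ∧
    ((i : ℕ) * (B : ℕ) + (d : ℕ) = (x : ℕ) ∧
    ((i : ℕ) < (M : ℕ) ∧
    ((d : ℕ) < (B : ℕ) ∧
    ((∃ X : Finset (Fin n), X.card ≤ b ∧ ∀ a, a < (U : ℕ) → inV X a) ∧
    ∃ Z : Finset (Fin n), Z.card ≤ b ∧ (LuP P1 P3 b B L l₀ μ M Z ∧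
      inV Z ((i : ℕ) * (B : ℕ) + (d : ℕ))))))))))))))))))

lemma NS_BehP {P1 : Pd 2 5} {P3 : Pd 2 3} (h1 : NS 2 5 P1) (h3 : NS 2 3 P3) {k m : ℕ}
    (iB iL il iμ ii id ik : Fin k) (T Bt A : Fin m) :
    NS k m (fun _ b v V => BehP P1 P3 b (v iB) (v iL) (v il : ℕ) (v iμ : ℕ) (v ii : ℕ)
      (v id : ℕ) (v ik : ℕ) (V T) (V Bt) (V A)) := by
  unfold BehP
  refine NS.exS (NS.exS (NS.exS (NS.exS (NS.exS ?_))))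
  -- `Y` 0, `P` 1, `Mc` 2, `Bc` 3, `Xc` 4
  refine NS.and (NS.num iB iL (pc 0) 4) (NS.and (NS.num iB iL (pc 0) 3)
    (NS.and (NS.num iB iL (pc 0) 2) (NS.and (NS.num iB iL (pc 0) 1)
    (NS.and (NS.num iB iL (pc 0) 0) ?_))))
  refine NS.and (NS.dig3 iB iL (IsPoly.var id) (IsPoly.var ii) (pc 0) 4) ?_
  refine NS.and (NS.dig3 iB iL (pc 0) (pc 1) (pc 0) 3) ?_
  refine NS.and (NS.dig3 iB iL (IsPoly.var iμ) (pc 0) (pc 0) 2) ?_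
  refine NS.and (NS.hz iB iL il 1) (NS.and (NS.hz iB iL il 0) (NS.and
    (NS.powP iB iL ik 1 0) ?_))
  refine NS.and ?_ ?_
  · refine (h1.sub (k' := k) (m' := m + 5) ![iB, iL]
      ![1, 3, 2, 4, Bt.succ.succ.succ.succ.succ]).congr (fun n b v V => ?_)
    have e1 : (v ∘ ![iB, iL]) = ![v iB, v iL] := by
      funext i
      fin_cases i <;> rfl
    have e2 : (V ∘ ![1, 3, 2, 4, Bt.succ.succ.succ.succ.succ]) =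
        ![V 1, V 3, V 2, V 4, V Bt.succ.succ.succ.succ.succ] := by
      funext i
      fin_cases i <;> rfl
    rw [e1, e2]
    exact Iff.rfl
  · refine (h3.sub (k' := k) (m' := m + 5) ![iB, iL]
      ![0, T.succ.succ.succ.succ.succ, A.succ.succ.succ.succ.succ]).congr (fun n b v V => ?_)
    have e1 : (v ∘ ![iB, iL]) = ![v iB, v iL] := by
      funext i
      fin_cases i <;> rfl
    have e2 : (V ∘ ![0, T.succ.succ.succ.succ.succ, A.succ.succ.succ.succ.succ]) =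
        ![V 0, V T.succ.succ.succ.succ.succ, V A.succ.succ.succ.succ.succ] := by
      funext i
      fin_cases i <;> rfl
    rw [e1, e2]
    exact Iff.rfl

lemma NS_TauP {P1 : Pd 2 5} {P3 : Pd 2 3} (h1 : NS 2 5 P1) (h3 : NS 2 3 P3) {k m : ℕ}
    (iB iL il iμ iM : Fin k) (Z : Fin m) :
    NS k m (fun _ b v V => TauP P1 P3 b (v iB) (v iL) (v il) (v iμ) (v iM) (V Z)) := by
  unfold TauP
  refine NS.exlt iμ (NS.exS (NS.exS (NS.exS ?_)))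
  -- `A` 0, `Bt` 1, `T` 2, `k` 0
  refine NS.and (NS.num iB.succ iL.succ (pc 0) 2) (NS.and (NS.num iB.succ iL.succ (pc 0) 1)
    (NS.and (NS.num iB.succ iL.succ (pc 0) 0) (NS.and (NS.hz iB.succ iL.succ iμ.succ 2)
    (NS.and (NS.hz iB.succ iL.succ iμ.succ 1) (NS.and (NS.hz iB.succ iL.succ iμ.succ 0) ?_)))))
  refine NS.alllt iM.succ (NS.alllt iB.succ.succ (NS.iff (NS.inV (((IsPoly.var 1).mul
    (IsPoly.var iB.succ.succ.succ)).add (IsPoly.var 0)) Z.succ.succ.succ) ?_))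
  exact NS_BehP h1 h3 iB.succ.succ.succ iL.succ.succ.succ il.succ.succ.succ iμ.succ.succ.succ
    1 0 2 2 1 0

lemma NS_GoodP {P1 : Pd 2 5} {P3 : Pd 2 3} (h1 : NS 2 5 P1) (h3 : NS 2 3 P3) {k m : ℕ}
    (iB iL il iμ iM : Fin k) (Z : Fin m) :
    NS k m (fun _ b v V => GoodP P1 P3 b (v iB) (v iL) (v il) (v iμ) (v iM) (V Z)) :=
  NS.and (NS.num iB iL (pc 0) Z) (NS.and (NS.hz iB iL iM Z)
    (NS.not (NS_TauP h1 h3 iB iL il iμ iM Z)))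

lemma NS_LuP {P1 : Pd 2 5} {P3 : Pd 2 3} (h1 : NS 2 5 P1) (h3 : NS 2 3 P3) {k m : ℕ}
    (iB iL il iμ iM : Fin k) (Z : Fin m) :
    NS k m (fun _ b v V => LuP P1 P3 b (v iB) (v iL) (v il) (v iμ) (v iM) (V Z)) := by
  unfold LuP
  exact NS.and (NS_GoodP h1 h3 iB iL il iμ iM Z) (NS.not (NS.exS (NS.and
    (NS_GoodP h1 h3 iB iL il iμ iM 0) (NS.ltP iB iL 0 Z.succ))))

lemma NS_DpA {P1 : Pd 2 5} {P3 : Pd 2 3} (h1 : NS 2 5 P1) (h3 : NS 2 3 P3) (e : ℕ) :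
    NS 0 0 (DpA P1 P3 e) := by
  unfold DpA
  refine NS.ex (NS.ex (NS.ex (NS.ex (NS.ex (NS.ex (NS.ex (NS.ex (NS.ex (NS.ex (NS.ex
    ?_))))))))))
  -- `d` 0, `i` 1, `m₀` 2, `U` 3, `L` 4, `l₀` 5, `M` 6, `x` 7, `C` 8, `μ` 9, `B` 10
  refine NS.and (NS.all (NS.lt 3 0).not) ?_
  refine NS.and (NS.val (((IsPoly.var 8).mul (IsPoly.var 8)).add (IsPoly.var 7)) 2) ?_
  refine NS.and (NS.plt (IsPoly.var 7) (((pc 2).mul (IsPoly.var 8)).add (pc 1))) ?_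
  refine NS.and (NS.val (((IsPoly.var 10).mul (IsPoly.var 10)).add (IsPoly.var 9)) 8) ?_
  refine NS.and (NS.plt (IsPoly.var 9) (((pc 2).mul (IsPoly.var 10)).add (pc 1))) ?_
  refine NS.and (NS.val ((pc 4).mul (IsPoly.var 9)) 6) ?_
  refine NS.and (NS.val (((((pc 2).mul ((IsPoly.var 9).add (pc 7))).add (pc 1)).mul
    (IsPoly.var 9)).add (pc 1)) 5) ?_
  refine NS.and (NS.val ((pc (e + 1)).mul ((IsPoly.var 5).add (pc 1))) 4) ?_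
  refine NS.and (NS.val (((IsPoly.var 4).add (pc 1)).mul (IsPoly.var 4)) 3) ?_
  refine NS.and (NS.lt 3 10) ?_
  refine NS.and (NS.ltv (pc (e + 3)) 10) ?_
  refine NS.and (NS.val (((IsPoly.var 1).mul (IsPoly.var 10)).add (IsPoly.var 0)) 7) ?_
  refine NS.and (NS.lt 1 6) ?_
  refine NS.and (NS.lt 0 10) ?_
  refine NS.and (NS.exS (NS.alllt 3 (NS.inV (IsPoly.var 0) 0))) ?_
  exact NS.exS (NS.and (NS_LuP h1 h3 10 4 5 9 6 0)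
    (NS.inV (((IsPoly.var 1).mul (IsPoly.var 10)).add (IsPoly.var 0)) 0))

end Pool.Agent.Helper12.SS
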