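import Pool.Agent.Helper12.SS.AMain

/-!
# Spectra with quantifiers over small sets, against advice: all `s` which tend to infinity

`aDiagLim` and `smallSetsLim` are `aDiag` and `smallSetsAdv` for all `s : ℕ → ℕ` with limit infinity,
monotone or not.
-/

set_option autoImplicit false

namespace Pool.Agent.Helper12.SS

open FirstOrder FirstOrder.Language Pool.Agent.Helper20.Spectra Pool.Agent.Helper14.SS Filter

/-- The diagonal set, for every `s` which tends to infinity. -/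
theorem aDiagLim (hQ : ∀ A, IsSpectrum A → RudAdv A) : ∃ φ : SFm ArL 0 0,
    ∀ s : ℕ → ℕ, (∀ b, ∃ n₀, ∀ n, n₀ ≤ n → b ≤ s n) → ¬ RudAdv (arithS s φ) := by
  obtain ⟨E, c, hE, hEU⟩ := hQ _ univSizes_spectrum
  obtain ⟨e1, P1, hP1, hv1⟩ := trans t_num t_exCd t_add t_mul 5 S1 rud_S1
  obtain ⟨e3, P3, hP3, hv3⟩ := trans t_num t_exCd t_add t_mul 3 (S3 E) (rud_S3 hE)
  obtain ⟨e, he⟩ : ∃ e, e = e1 + e3 := ⟨_, rfl⟩
  have g1 : Ev P1 e S1 := Ev.mono hv1 (by omega)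
  have g3 : Ev P3 e (S3 E) := Ev.mono hv3 (by omega)
  obtain ⟨φ, hφ⟩ := NS_DpA hP1 hP3 e
  refine ⟨φ, fun s hu hD => ?_⟩
  obtain ⟨E', c', hE', hX⟩ := hD
  -- `E'` without zero is a spectrum
  have hE0 : IsSpectrum {m | 1 ≤ m ∧ m ∈ E'} := by
    have h1 := hE'.preimage Polynomial.X
    have h2 : IsRudimentary {m | 1 ≤ m ∧ m ∈ E'} := by
      simpa using h1
    exact h2.isSpectrum (by rintro ⟨h3, _⟩; omega)
  obtain ⟨k, Θ, hΘ⟩ := spectrum_blocks hE0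
  obtain ⟨t, rfl⟩ := exists_blk Θ
  have hk : ∀ m, 1 ≤ m → (m ∈ E' ↔ ux (m ^ (k + 1)) t ∈ univSizes) := by
    intro m hm
    have h1 := hΘ m hm
    rw [← mem_univSizes t] at h1
    have h2 : (m ^ (k + 1) + 2 + t) ^ 2 + t = ux (m ^ (k + 1)) t := by unfold ux; ring
    rw [h2] at h1
    rw [← h1]
    exact ⟨fun h => ⟨hm, h⟩, fun h => h.2⟩
  obtain ⟨μ₀, hμ₀⟩ := adv_tuple hEU hX hk
  obtain ⟨μ, hμ⟩ : ∃ μ, μ = μ₀ + 1 := ⟨_, rfl⟩
  obtain ⟨l₀, hl⟩ : ∃ l₀, (2 * (μ + 7) + 1) * μ + 1 = l₀ := ⟨_, rfl⟩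
  obtain ⟨L, hL⟩ : ∃ L, (e + 1) * (l₀ + 1) = L := ⟨_, rfl⟩
  obtain ⟨n₀, hn₀⟩ := hu ((L + 1) * L)
  obtain ⟨B, hB⟩ : ∃ B, B = n₀ + (L + 1) * L + 4 * μ * (8 * (k + 1) + 1) + e + 4 := ⟨_, rfl⟩
  obtain ⟨C, hC⟩ : ∃ C, B * B + μ = C := ⟨_, rfl⟩
  obtain ⟨z, hz⟩ := exists_lu E (B := B) μ (by omega)
  obtain ⟨hkμ, htB, β, hβ, α, hα, hbeh⟩ := hμ₀ μ (by omega) B (by omega)
  apply hz.1.2
  refine ⟨k, hkμ, t, htB, β, hβ, α, hα, fun i hi d hd => ?_⟩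
  have hx : i * B + d < 4 * μ * B := by
    calc i * B + d < i * B + B := by omega
      _ = (i + 1) * B := by ring
      _ ≤ 4 * μ * B := Nat.mul_le_mul_right _ hi
  rw [← hbeh (i * B + d) hx]
  obtain ⟨n, hn⟩ : ∃ n, n = C * C + (i * B + d) + 1 := ⟨_, rfl⟩
  have hn' : nx B μ (i * B + d) = n := by
    rw [hn]; unfold nx; rw [hC]
  have hBn : B ≤ n := by
    have h1 : B * 1 ≤ B * B := Nat.mul_le_mul_left _ (by omega)
    have h2 : C * 1 ≤ C * C := Nat.mul_le_mul_left _ (by omega)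
    omega
  have hb : (L + 1) * L ≤ s n := hn₀ n (by omega)
  have h5 := DpA_iff g1 g3 hn hC hl hL (by omega) (by omega) hb hi hd hz Fin.elim0 Fin.elim0
  rw [hn', ← h5, ← hφ]
  exact ⟨fun h => ⟨by omega, h⟩, fun h => h.2⟩


/-- Small sets, with advice, for all `s` which tend to infinity. -/
theorem smallSetsLim :
    (∃ (L : FirstOrder.Language.{0, 0}) (_ : Finite (Σ l, L.Functions l))
      (_ : Finite (Σ l, L.Relations l)) (Φ : SFm L 0 0),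
      ∀ s : ℕ → ℕ, Tendsto s atTop atTop → ¬ RudAdv (specS s Φ)) ∧
    ((∀ A, IsSpectrum A → RudAdv A) → ∃ φ : SFm ArL 0 0,
      ∀ s : ℕ → ℕ, Tendsto s atTop atTop → ¬ RudAdv (arithS s φ)) := by
  have hT : (∀ A, IsSpectrum A → RudAdv A) → ∃ φ : SFm ArL 0 0,
      ∀ s : ℕ → ℕ, Tendsto s atTop atTop → ¬ RudAdv (arithS s φ) := by
    intro hQ
    obtain ⟨φ, hφ⟩ := aDiagLim hQ
    exact ⟨φ, fun s hs => hφ s fun b => eventually_atTop.1 (tendsto_atTop.1 hs b)⟩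
  refine ⟨?_, hT⟩
  by_cases hQ : ∀ A, IsSpectrum A → RudAdv A
  · obtain ⟨φ, hφ⟩ := hT hQ
    obtain ⟨Φ, hΦ⟩ := arith_unif φ
    refine ⟨ArL, inferInstance, inferInstance, Φ, fun s hs => ?_⟩
    rw [hΦ]
    exact hφ s hs
  · push Not at hQ
    obtain ⟨A, hA, hAr⟩ := hQ
    obtain ⟨L, hF, hR, Φ, hΦ⟩ := fo_unif hA
    refine ⟨L, hF, hR, Φ, fun s _ => ?_⟩
    rw [hΦ]
    exact hAr

end Pool.Agent.Helper12.SS
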