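import Pool.Agent.Helper12.SS.ADiag
import Pool.Agent.Helper38.DG.AdvTools
import Pool.Agent.Helper38.DG.Bridge
import Pool.Agent.Helper14.SS.Main

/-!
# Spectra with quantifiers over small sets, against advice
-/

set_option autoImplicit false

namespace Pool.Agent.Helper12.SS

open FirstOrder FirstOrder.Language Pool.Agent.Helper20.Spectra Pool.Agent.Helper14.SS

theorem aDiag' : (∀ A, IsSpectrum A → RudAdv A) → ∃ φ : SFm ArL 0 0,
    ∀ s : ℕ → ℕ, Monotone s → (∀ b, ∃ n, b < s n) → ¬ RudAdv (arithS s φ) := by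
  intro hQ
  obtain ⟨φ, hφ⟩ := aDiag hQ
  exact ⟨φ, fun s hs hu => hφ s hs (fun b => (hu b).imp (fun n hn => hn.le))⟩

/-- Small sets, with advice. -/
theorem smallSetsAdv :
    (∃ (L : FirstOrder.Language.{0, 0}) (_ : Finite (Σ l, L.Functions l))
      (_ : Finite (Σ l, L.Relations l)) (Φ : SFm L 0 0),
      ∀ s : ℕ → ℕ, Monotone s → (∀ b, ∃ n, b < s n) → ¬ RudAdv (specS s Φ)) ∧
    ((∀ A, IsSpectrum A → RudAdv A) → ∃ φ : SFm ArL 0 0,
      ∀ s : ℕ → ℕ, Monotone s → (∀ b, ∃ n, b < s n) → ¬ RudAdv (arithS s φ)) := by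
  refine ⟨?_, aDiag'⟩
  by_cases hQ : ∀ A, IsSpectrum A → RudAdv A
  · obtain ⟨φ, hφ⟩ := aDiag' hQ
    obtain ⟨Φ, hΦ⟩ := arith_unif φ
    refine ⟨ArL, inferInstance, inferInstance, Φ, fun s hs hu => ?_⟩
    rw [hΦ]
    exact hφ s hs hu
  · push Not at hQ
    obtain ⟨A, hA, hAr⟩ := hQ
    obtain ⟨L, hF, hR, Φ, hΦ⟩ := fo_unif hA
    refine ⟨L, hF, hR, Φ, fun s _ _ => ?_⟩
    rw [hΦ]
    exact hAr

open Pool.Agent.Helper38.DG in
/-- the digit sets against advice, from the two cases -/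
theorem digitsAdv_of
    (hsq : ∀ Θ : Finset (ℕ × ℕ × ℕ × ℕ),
      ∃ (L : FirstOrder.Language.{0, 0}) (_ : Finite (Σ l, L.Functions l))
        (_ : Finite (Σ l, L.Relations l)) (φ : L.Sentence) (n₀ : ℕ), ∀ n, n₀ ≤ n →
        ((numModels φ n).testBit (n ^ 3) = true ↔ n ∈ squareSizes Θ))
    (htoda : ∀ A : Set ℕ, RudS ll A →
      ∃ (L : FirstOrder.Language.{0, 0}) (_ : Finite (Σ l, L.Functions l))
        (_ : Finite (Σ l, L.Relations l)) (φ : L.Sentence) (n₀ : ℕ), ∀ n, n₀ ≤ n →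
        ((numModels φ n).testBit (n ^ 3) = true ↔ n ∈ A)) :
    ∃ (L : FirstOrder.Language.{0, 0}) (_ : Finite (Σ l, L.Functions l))
      (_ : Finite (Σ l, L.Relations l)) (φ : L.Sentence),
      ¬ RudAdv {n | 1 ≤ n ∧ (numModels φ n).testBit (n ^ 3) = true} := by
  have key : ∀ B : Set ℕ, ¬ RudAdv B →
      (∃ (L : FirstOrder.Language.{0, 0}) (_ : Finite (Σ l, L.Functions l))
        (_ : Finite (Σ l, L.Relations l)) (φ : L.Sentence) (n₀ : ℕ), ∀ n, n₀ ≤ n →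
        ((numModels φ n).testBit (n ^ 3) = true ↔ n ∈ B)) →
      ∃ (L : FirstOrder.Language.{0, 0}) (_ : Finite (Σ l, L.Functions l))
        (_ : Finite (Σ l, L.Relations l)) (φ : L.Sentence),
        ¬ RudAdv {n | 1 ≤ n ∧ (numModels φ n).testBit (n ^ 3) = true} := by
    rintro B hB ⟨L, hF, hR, φ, n₀, h⟩
    refine ⟨L, hF, hR, φ, fun hrud => hB ?_⟩
    refine advFin _ _ (n₀ + 1) hrud (fun n hn => ?_)
    rw [← h n (by omega)]
    constructor
    · rintro ⟨_, h1⟩; exact h1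
    · intro h1; exact ⟨by omega, h1⟩
  by_cases hS : ∀ A : Set ℕ, IsSpectrum A → RudAdv A
  · obtain ⟨φ, hφ⟩ := aDiag' hS
    refine key (arithS ll φ) (hφ ll ll_mono ?_) (htoda _ (setArith_rudS ll _ ⟨φ, rfl⟩))
    intro b
    obtain ⟨n, hn⟩ := ll_unb (b + 1)
    exact ⟨n, hn⟩
  · obtain ⟨Θ₀, hΘ⟩ := exists_universal_blocks
    refine key (squareSizes Θ₀) (fun hrud => hS (fun A hA => ?_)) (hsq Θ₀)
    obtain ⟨q, hq⟩ := hΘ A hA
    rw [hq]
    exact advPre _ q hrud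

end Pool.Agent.Helper12.SS
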