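import Pool.Agent.Helper12.SS.AdvDefs

/-!
# The diagonal set against advice: numbers
-/

set_option autoImplicit false

namespace Pool.Agent.Helper12.SS

open FirstOrder Pool.Agent.Helper20.Spectra Pool.Agent.Helper14.SS

/-- the numbers of the block of `(B, μ)` -/
def nx (B μ x : ℕ) : ℕ := (B * B + μ) * (B * B + μ) + x + 1

/-- coded pair -/
def px (B μ β x : ℕ) : ℕ := (nx B μ x + β) * (nx B μ x + β) + nx B μ x

/-- the instance of the universal spectrum -/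
def ux (y t : ℕ) : ℕ := (y + 2 + t) * (y + 2 + t) + t

lemma one_le_ux (y t : ℕ) : 1 ≤ ux y t := by
  unfold ux
  have : 1 * 1 ≤ (y + 2 + t) * (y + 2 + t) := Nat.mul_le_mul (by omega) (by omega)
  omega

/-- predicted behaviour -/
def Beh (E : Set ℕ) (B μ k t β α x : ℕ) : Prop :=
  (ux (px B μ β x ^ (k + 1)) t + α) * (ux (px B μ β x ^ (k + 1)) t + α) +
    ux (px B μ β x ^ (k + 1)) t ∈ E

/-- the behaviour is the pattern of the number `z` -/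
def Mt (E : Set ℕ) (B μ z k t β α : ℕ) : Prop :=
  ∀ i, i < 4 * μ → ∀ d, d < B → (z / B ^ i % B = d ↔ Beh E B μ k t β α (i * B + d))

/-- the pattern of `z` is not a behaviour -/
def Un (E : Set ℕ) (B μ z : ℕ) : Prop :=
  z < B ^ (4 * μ) ∧ ¬ ∃ k, k < μ ∧ ∃ t, t < B ^ μ ∧ ∃ β, β < B ^ μ ∧ ∃ α, α < B ^ μ ∧
    Mt E B μ z k t β α

lemma exists_un (E : Set ℕ) {B : ℕ} (μ : ℕ) (hB : 2 ≤ B) : ∃ z, Un E B μ z := by
  classical
  by_contra hne
  push Not at hne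
  have h : ∀ z ∈ Finset.range (B ^ (4 * μ)), ∃ τ : ℕ × ℕ × ℕ × ℕ,
      τ ∈ Finset.range μ ×ˢ Finset.range (B ^ μ) ×ˢ Finset.range (B ^ μ) ×ˢ
        Finset.range (B ^ μ) ∧ Mt E B μ z τ.1 τ.2.1 τ.2.2.1 τ.2.2.2 := by
    intro z hz
    have h1 := hne z
    unfold Un at h1
    rw [not_and_not_right] at h1
    obtain ⟨k, hk, t, ht, β, hβ, α, hα, hm⟩ := h1 (Finset.mem_range.1 hz)
    exact ⟨(k, t, β, α), by simp [hk, ht, hβ, hα], hm⟩
  choose! f hf using h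
  have hcard : (Finset.range μ ×ˢ Finset.range (B ^ μ) ×ˢ Finset.range (B ^ μ) ×ˢ
        Finset.range (B ^ μ)).card < (Finset.range (B ^ (4 * μ))).card := by
    rw [Finset.card_product, Finset.card_product, Finset.card_product, Finset.card_range,
      Finset.card_range, Finset.card_range]
    have h1 : μ < B ^ μ := Nat.lt_pow_self (by omega)
    have h2 : 0 < B ^ μ := by omega
    calc μ * (B ^ μ * (B ^ μ * B ^ μ)) < B ^ μ * (B ^ μ * (B ^ μ * B ^ μ)) :=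
          Nat.mul_lt_mul_of_pos_right h1 (by positivity)
      _ = B ^ (4 * μ) := by ring
  obtain ⟨z, hz, z', hz', hne', heq⟩ := Finset.exists_ne_map_eq_of_card_lt_of_maps_to hcard
    (fun z hz => (hf z hz).1)
  apply hne'
  apply dig_ext (B := B) (by omega) (Finset.mem_range.1 hz) (Finset.mem_range.1 hz')
  intro i hi
  have h1 := (hf z hz).2 i hi (z / B ^ i % B) (Nat.mod_lt _ (by omega))
  have h2 := (hf z' hz').2 i hi (z / B ^ i % B) (Nat.mod_lt _ (by omega))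
  rw [heq] at h1
  exact (h2.2 (h1.1 rfl)).symm

/-- the least pattern which is not a behaviour -/
def Lu (E : Set ℕ) (B μ z : ℕ) : Prop := Un E B μ z ∧ ∀ z', z' < z → ¬ Un E B μ z'

lemma exists_lu (E : Set ℕ) {B : ℕ} (μ : ℕ) (hB : 2 ≤ B) : ∃ z, Lu E B μ z := by
  classical
  have h := exists_un E μ hB
  exact ⟨Nat.find h, Nat.find_spec h, fun z' hz' => Nat.find_min h hz'⟩

lemma lu_uniq {E : Set ℕ} {B μ z z' : ℕ} (h : Lu E B μ z) (h' : Lu E B μ z') : z = z' := by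
  rcases Nat.lt_trichotomy z z' with h1 | h1 | h1
  · exact absurd h.1 (h'.2 z h1)
  · exact h1
  · exact absurd h'.1 (h.2 z' h1)

/-! ### Sizes -/

lemma le_add_const {B a i : ℕ} (c : ℕ) (hB : 2 ≤ B) (h : a ≤ B ^ i) : a + c ≤ B ^ (i + c) := by
  induction c with
  | zero => simpa using h
  | succ c ih =>
    have h1 : 1 ≤ B ^ (i + c) := Nat.one_le_pow _ _ (by omega)
    have h2 : B ^ (i + c) * 2 ≤ B ^ (i + c) * B := Nat.mul_le_mul_left _ hB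
    rw [← add_assoc i c 1, pow_succ]
    omega

lemma le_mul_self {B a i : ℕ} (h : a ≤ B ^ i) : a * a ≤ B ^ (2 * i) := by
  calc a * a ≤ B ^ i * B ^ i := Nat.mul_le_mul h h
    _ = B ^ (2 * i) := by rw [← pow_add]; congr 1; omega

lemma nx_le {B μ x : ℕ} (hB : 4 ≤ B) (hμ : μ ≤ B) (hx : x ≤ B * B) : nx B μ x ≤ B ^ 6 := by
  have h1 : B * B + μ ≤ 2 * (B * B) := by nlinarith
  have h2 : (B * B + μ) * (B * B + μ) ≤ 2 * (B * B) * (2 * (B * B)) := Nat.mul_le_mul h1 h1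
  have h3 : 2 * (B * B) * (2 * (B * B)) = 4 * B ^ 4 := by ring
  have h4 : B * B + 1 ≤ B ^ 4 := by
    have : 1 ≤ B * B := by nlinarith
    have h5 : B * B * 2 ≤ B * B * (B * B) := Nat.mul_le_mul_left _ (by nlinarith)
    calc B * B + 1 ≤ B * B * 2 := by omega
      _ ≤ B * B * (B * B) := h5
      _ = B ^ 4 := by ring
  have h6 : 5 * B ^ 4 ≤ B ^ 6 := by
    have : 5 ≤ B ^ 2 := by nlinarith
    calc 5 * B ^ 4 ≤ B ^ 2 * B ^ 4 := Nat.mul_le_mul_right _ this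
      _ = B ^ 6 := by ring
  unfold nx
  omega

lemma px_le {B μ β x j : ℕ} (hB : 4 ≤ B) (hμ : μ ≤ B) (hx : x ≤ B * B) (hβ : β ≤ B ^ j) :
    px B μ β x ≤ B ^ (2 * (j + 7) + 1) := by
  have h1 := nx_le hB hμ hx
  have h2 : nx B μ x + β ≤ B ^ (j + 7) := by
    have h3 : B ^ 6 ≤ B ^ (j + 6) := Nat.pow_le_pow_right (by omega) (by omega)
    have h4 : B ^ j ≤ B ^ (j + 6) := Nat.pow_le_pow_right (by omega) (by omega)
    have h5 : B ^ (j + 6) * 2 ≤ B ^ (j + 6) * B := Nat.mul_le_mul_left _ (by omega)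
    calc nx B μ x + β ≤ B ^ (j + 6) * 2 := by omega
      _ ≤ B ^ (j + 6) * B := h5
      _ = B ^ (j + 7) := by rw [← pow_succ]
  have h3 := le_mul_self h2
  have h4 : nx B μ x ≤ B ^ (2 * (j + 7)) :=
    h1.trans (Nat.pow_le_pow_right (by omega) (by omega))
  have h5 : B ^ (2 * (j + 7)) * 2 ≤ B ^ (2 * (j + 7)) * B := Nat.mul_le_mul_left _ (by omega)
  rw [pow_succ]
  unfold px
  omega

lemma ppow_le {B μ β x j k : ℕ} (hB : 4 ≤ B) (hμ : μ ≤ B) (hx : x ≤ B * B) (hβ : β ≤ B ^ j) :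
    px B μ β x ^ (k + 1) ≤ B ^ ((2 * (j + 7) + 1) * (k + 1)) := by
  rw [pow_mul]
  exact Nat.pow_le_pow_left (px_le hB hμ hx hβ) _

lemma ux_le {B y t i : ℕ} (hB : 2 ≤ B) (hy : y ≤ B ^ i) :
    ux y t ≤ B ^ (2 * (i + (2 + t)) + t) := by
  have h1 : y + 2 + t ≤ B ^ (i + (2 + t)) := by
    rw [add_assoc]; exact le_add_const (2 + t) hB hy
  exact le_add_const t hB (le_mul_self h1)

/-! ### The ratio of consecutive values -/

lemma one_add_pow_lt {K : ℕ} : (1 + 1 / (2 * (K : ℝ) + 1)) ^ K < 2 := by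
  have hQ : (0 : ℝ) < 2 * (K : ℝ) + 1 := by positivity
  have h1 : (1 + (K : ℝ) * (-(1 / (2 * (K : ℝ) + 2)))) ≤ (1 + -(1 / (2 * (K : ℝ) + 2))) ^ K := by
    apply one_add_mul_le_pow
    have : (1 / (2 * (K : ℝ) + 2)) ≤ 1 := by
      rw [div_le_one (by positivity)]; linarith [Nat.cast_nonneg (α := ℝ) K]
    linarith
  have h2 : (1 + 1 / (2 * (K : ℝ) + 1)) * (1 + -(1 / (2 * (K : ℝ) + 2))) = 1 := by
    field_simp
    ring
  have h3 : (1 + 1 / (2 * (K : ℝ) + 1)) ^ K * (1 + -(1 / (2 * (K : ℝ) + 2))) ^ K = 1 := by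
    rw [← mul_pow, h2, one_pow]
  have h4 : (1 / 2 : ℝ) < (1 + -(1 / (2 * (K : ℝ) + 2))) ^ K := by
    refine lt_of_lt_of_le ?_ h1
    have : (K : ℝ) * (1 / (2 * (K : ℝ) + 2)) < 1 / 2 := by
      rw [mul_one_div, div_lt_div_iff₀ (by positivity) (by norm_num)]
      linarith
    linarith
  by_contra hge
  push Not at hge
  have h5 : (0 : ℝ) < (1 + -(1 / (2 * (K : ℝ) + 2))) ^ K := by linarith
  nlinarith

lemma ux_window {B μ β k t x : ℕ} (hB : 1 ≤ B) (hx : (8 * (k + 1) + 1) * x ≤ B ^ 4) :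
    ux (px B μ β x ^ (k + 1)) t < 2 * ux (px B μ β 0 ^ (k + 1)) t := by
  have hr := one_add_pow_lt (K := 4 * (k + 1))
  set r : ℝ := 1 + 1 / (2 * ((4 * (k + 1) : ℕ) : ℝ) + 1) with hrdef
  have hr1 : 1 ≤ r := by
    rw [hrdef]
    have : (0 : ℝ) ≤ 1 / (2 * ((4 * (k + 1) : ℕ) : ℝ) + 1) := by positivity
    linarith
  have hn : (nx B μ x : ℝ) ≤ r * (nx B μ 0 : ℝ) := by
    have h1 : (8 * (k + 1) + 1) * x ≤ nx B μ 0 := by
      refine hx.trans ?_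
      unfold nx
      have h2 : B * B * (B * B) ≤ (B * B + μ) * (B * B + μ) :=
        Nat.mul_le_mul (by omega) (by omega)
      calc B ^ 4 = B * B * (B * B) := by ring
        _ ≤ (B * B + μ) * (B * B + μ) := h2
        _ ≤ _ := by omega
    have h3 : nx B μ x = nx B μ 0 + x := by unfold nx; omega
    have h4 : ((2 * ((4 * (k + 1) : ℕ) : ℝ) + 1)) * (x : ℝ) ≤ (nx B μ 0 : ℝ) := by
      have : (((8 * (k + 1) + 1) * x : ℕ) : ℝ) ≤ (nx B μ 0 : ℝ) := by exact_mod_cast h1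
      push_cast at this ⊢
      linarith
    have h5 : (x : ℝ) ≤ 1 / (2 * ((4 * (k + 1) : ℕ) : ℝ) + 1) * (nx B μ 0 : ℝ) := by
      rw [one_div, inv_mul_eq_div, le_div_iff₀ (by positivity)]
      linarith
    rw [h3, hrdef]
    push_cast at h5 ⊢
    linarith
  have hn0 : (0 : ℝ) ≤ (nx B μ 0 : ℝ) := Nat.cast_nonneg _
  have hβ : (0 : ℝ) ≤ (β : ℝ) := Nat.cast_nonneg _
  have ht : (0 : ℝ) ≤ (t : ℝ) := Nat.cast_nonneg _
  have hr0 : (0 : ℝ) ≤ r := by linarith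
  have hr2 : 1 ≤ r ^ 2 := one_le_pow₀ hr1
  have hp : (px B μ β x : ℝ) ≤ r ^ 2 * (px B μ β 0 : ℝ) := by
    unfold px
    push_cast
    have h1 : (nx B μ x : ℝ) + β ≤ r * ((nx B μ 0 : ℝ) + β) := by nlinarith
    have h2 : (0 : ℝ) ≤ (nx B μ x : ℝ) + β := by positivity
    have h3 : ((nx B μ x : ℝ) + β) * ((nx B μ x : ℝ) + β) ≤
        (r * ((nx B μ 0 : ℝ) + β)) * (r * ((nx B μ 0 : ℝ) + β)) :=
      mul_le_mul h1 h1 h2 (by positivity)
    have h4 : (nx B μ x : ℝ) ≤ r ^ 2 * (nx B μ 0 : ℝ) := by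
      refine hn.trans ?_
      rw [pow_two, mul_assoc]
      nlinarith
    nlinarith
  have hpp : (px B μ β x : ℝ) ^ (k + 1) ≤ r ^ (2 * (k + 1)) * (px B μ β 0 : ℝ) ^ (k + 1) := by
    calc (px B μ β x : ℝ) ^ (k + 1) ≤ (r ^ 2 * (px B μ β 0 : ℝ)) ^ (k + 1) :=
          pow_le_pow_left₀ (Nat.cast_nonneg _) hp _
      _ = r ^ (2 * (k + 1)) * (px B μ β 0 : ℝ) ^ (k + 1) := by rw [mul_pow, ← pow_mul]
  set R : ℝ := r ^ (2 * (k + 1)) with hR
  have hR1 : 1 ≤ R := one_le_pow₀ hr1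
  have hR2 : R * R < 2 := by
    rw [hR, ← pow_add]
    have : 2 * (k + 1) + 2 * (k + 1) = 4 * (k + 1) := by ring
    rw [this]
    exact hr
  have hp0 : (0 : ℝ) ≤ (px B μ β 0 : ℝ) ^ (k + 1) := by positivity
  have hpx0 : (0 : ℝ) ≤ (px B μ β x : ℝ) ^ (k + 1) := by positivity
  have h1 : (px B μ β x : ℝ) ^ (k + 1) + 2 + t ≤ R * ((px B μ β 0 : ℝ) ^ (k + 1) + 2 + t) := by
    nlinarith
  have h2 : ((px B μ β x : ℝ) ^ (k + 1) + 2 + t) * ((px B μ β x : ℝ) ^ (k + 1) + 2 + t) ≤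
      (R * ((px B μ β 0 : ℝ) ^ (k + 1) + 2 + t)) * (R * ((px B μ β 0 : ℝ) ^ (k + 1) + 2 + t)) :=
    mul_le_mul h1 h1 (by positivity) (by positivity)
  have h3 : (0 : ℝ) < ((px B μ β 0 : ℝ) ^ (k + 1) + 2 + t) * ((px B μ β 0 : ℝ) ^ (k + 1) + 2 + t) := by
    positivity
  have h4 : ((ux (px B μ β x ^ (k + 1)) t : ℕ) : ℝ) <
      ((2 * ux (px B μ β 0 ^ (k + 1)) t : ℕ) : ℝ) := by
    unfold ux
    push_cast
    nlinarith
  exact_mod_cast h4

/-- the behaviour of a rudimentary set with advice on a block is predicted by a small tuple -/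
lemma adv_tuple {E E' X : Set ℕ} {c c' k t : ℕ}
    (hE : ∀ N, 1 ≤ N → ∃ a, a ≤ (N + 1) ^ c ∧ ∀ n, N ≤ n → n < 2 * N →
      (n ∈ univSizes ↔ (n + a) ^ 2 + n ∈ E))
    (hX : ∀ N, 1 ≤ N → ∃ a, a ≤ (N + 1) ^ c' ∧ ∀ n, N ≤ n → n < 2 * N →
      (n ∈ X ↔ (n + a) ^ 2 + n ∈ E'))
    (hk : ∀ m, 1 ≤ m → (m ∈ E' ↔ ux (m ^ (k + 1)) t ∈ univSizes)) :
    ∃ μ₀, ∀ μ, μ₀ ≤ μ → ∀ B, 4 * μ * (8 * (k + 1) + 1) + 4 ≤ B → k < μ ∧ t < B ^ μ ∧
      ∃ β, β < B ^ μ ∧ ∃ α, α < B ^ μ ∧ ∀ x, x < 4 * μ * B →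
        (nx B μ x ∈ X ↔ Beh E B μ k t β α x) := by
  obtain ⟨j, hj⟩ : ∃ j, j = (6 + 1) * c' := ⟨_, rfl⟩
  obtain ⟨i, hi⟩ : ∃ i, i = (2 * (j + 7) + 1) * (k + 1) := ⟨_, rfl⟩
  obtain ⟨l, hl⟩ : ∃ l, l = (2 * (i + (2 + t)) + t + 1) * c := ⟨_, rfl⟩
  refine ⟨j + l + k + t + 1, fun μ hμ B hB => ?_⟩
  have hμB : 4 * μ + 4 ≤ B := by
    have : 4 * μ * 1 ≤ 4 * μ * (8 * (k + 1) + 1) := Nat.mul_le_mul_left _ (by omega)
    omega
  have htB : t < B ^ μ := by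
    calc t < μ := by omega
      _ < B ^ μ := Nat.lt_pow_self (by omega)
  refine ⟨by omega, htB, ?_⟩
  obtain ⟨β, hβ, hβX⟩ := hX (nx B μ 0) (by unfold nx; omega)
  have hβ' : β ≤ B ^ j := by
    refine hβ.trans ?_
    rw [hj, pow_mul]
    exact Nat.pow_le_pow_left (le_add_const 1 (by omega)
      (nx_le (by omega) (by omega) (Nat.zero_le _))) _
  obtain ⟨u₀, hu₀⟩ : ∃ u₀, u₀ = ux (px B μ β 0 ^ (k + 1)) t := ⟨_, rfl⟩
  have hu1 : 1 ≤ u₀ := by rw [hu₀]; exact one_le_ux _ _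
  have hu2 : u₀ ≤ B ^ (2 * (i + (2 + t)) + t) := by
    rw [hu₀]
    apply ux_le (by omega)
    rw [hi]
    exact ppow_le (by omega) (by omega) (Nat.zero_le _) hβ'
  obtain ⟨α, hα, hαE⟩ := hE u₀ hu1
  have hα' : α ≤ B ^ l := by
    refine hα.trans ?_
    rw [hl, pow_mul]
    exact Nat.pow_le_pow_left (le_add_const 1 (by omega) hu2) _
  have hjμ : B ^ j < B ^ μ := Nat.pow_lt_pow_right (by omega) (by omega)
  have hlμ : B ^ l < B ^ μ := Nat.pow_lt_pow_right (by omega) (by omega)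
  refine ⟨β, by omega, α, by omega, fun x hx => ?_⟩
  have hx1 : (8 * (k + 1) + 1) * x ≤ B ^ 2 := by
    calc (8 * (k + 1) + 1) * x ≤ (8 * (k + 1) + 1) * (4 * μ * B) :=
          Nat.mul_le_mul_left _ hx.le
      _ = 4 * μ * (8 * (k + 1) + 1) * B := by ring
      _ ≤ B * B := Nat.mul_le_mul_right _ (by omega)
      _ = B ^ 2 := by ring
  have hx2 : x ≤ B * B := by
    have : 1 * x ≤ (8 * (k + 1) + 1) * x := Nat.mul_le_mul_right _ (by omega)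
    rw [pow_two] at hx1
    omega
  have hx4 : (8 * (k + 1) + 1) * x ≤ B ^ 4 :=
    hx1.trans (Nat.pow_le_pow_right (by omega) (by omega))
  have hn1 : nx B μ x = nx B μ 0 + x := by unfold nx; omega
  have hn2 : x < nx B μ 0 := by
    have h1 : B * B * (B * B) ≤ (B * B + μ) * (B * B + μ) :=
      Nat.mul_le_mul (by omega) (by omega)
    have h2 : B * B * 1 ≤ B * B * (B * B) := Nat.mul_le_mul_left _ (by nlinarith)
    unfold nx
    omega
  have e1 := hβX (nx B μ x) (by omega) (by omega)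
  have e2 : (nx B μ x + β) ^ 2 + nx B μ x = px B μ β x := by unfold px; ring
  rw [e2] at e1
  have e3 := hk (px B μ β x) (by unfold px; rw [hn1]; unfold nx; nlinarith)
  have hmono : u₀ ≤ ux (px B μ β x ^ (k + 1)) t := by
    rw [hu₀]
    have h1 : px B μ β 0 ≤ px B μ β x := by
      unfold px
      have : nx B μ 0 + β ≤ nx B μ x + β := by omega
      have h2 := Nat.mul_le_mul this this
      omega
    have h2 : px B μ β 0 ^ (k + 1) ≤ px B μ β x ^ (k + 1) := Nat.pow_le_pow_left h1 _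
    have h3 : px B μ β 0 ^ (k + 1) + 2 + t ≤ px B μ β x ^ (k + 1) + 2 + t := by omega
    have h4 := Nat.mul_le_mul h3 h3
    unfold ux
    omega
  have hlt : ux (px B μ β x ^ (k + 1)) t < 2 * u₀ := by
    rw [hu₀]
    exact ux_window (by omega) hx4
  have e4 := hαE _ hmono hlt
  rw [e1, e3, e4]
  unfold Beh
  rw [pow_two]

end Pool.Agent.Helper12.SS
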