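import Pool.Agent.Helper12.SS.ANum

/-!
# The diagonal set against advice: powers and order of coded numbers
-/

set_option autoImplicit false

namespace Pool.Agent.Helper12.SS

open FirstOrder Pool.Agent.Helper20.Spectra Pool.Agent.Helper14.SS

/-- the digits from position `l₀` on are zero -/
def HZ {n : ℕ} (B L l₀ : ℕ) (X : Finset (Fin n)) : Prop :=
  ∀ l, l < L → (¬ l < l₀ → inV X (l * B + 0))

/-- the row `j` of the table `T` is `X` -/
def Row {n : ℕ} (B L j : ℕ) (T X : Finset (Fin n)) : Prop :=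
  ∀ i, i < L → ∀ d, d < B → (inV T ((j * L + i) * B + d) ↔ inV X (i * B + d))

/-- `Y` is the power `P ^ (k + 1)` -/
def PowP {n : ℕ} (b B L k : ℕ) (P Y : Finset (Fin n)) : Prop :=
  ∃ T : Finset (Fin n), T.card ≤ b ∧ (Row B L 0 T P ∧ (Row B L k T Y ∧
    ∀ j, j < k → ∃ R : Finset (Fin n), R.card ≤ b ∧ ∃ R' : Finset (Fin n), R'.card ≤ b ∧
      (Num B L 0 R ∧ (Num B L 0 R' ∧ (Row B L j T R ∧ (Row B L (j + 1) T R' ∧
        MulP b B L R P R'))))))

/-- order of coded numbers -/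
def LtP {n : ℕ} (b B L : ℕ) (X Y : Finset (Fin n)) : Prop :=
  ∃ D : Finset (Fin n), D.card ≤ b ∧ (Num B L 0 D ∧
    ((¬ ∀ l, l < L → inV D (l * B + 0)) ∧ AddP b B L X D Y))

namespace NS

variable {k m : ℕ} {t : (Fin k → ℕ) → ℕ}

lemma hz (iB iL i₀ : Fin k) (X : Fin m) :
    NS k m (fun _ _ v V => HZ (v iB : ℕ) (v iL : ℕ) (v i₀ : ℕ) (V X)) := by
  unfold HZ
  exact NS.alllt iL (NS.imp (NS.lt 0 i₀.succ).not
    (NS.inV (((IsPoly.var 0).mul (IsPoly.var iB.succ)).add (pc 0)) X))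

lemma row (iB iL : Fin k) (ht : Pool.Agent.Helper20.Spectra.IsPoly k t) (T X : Fin m) :
    NS k m (fun _ _ v V => Row (v iB : ℕ) (v iL : ℕ) (t (vn v)) (V T) (V X)) := by
  unfold Row
  refine NS.alllt iL (NS.alllt iB.succ (NS.iff
    (NS.inV ((((ht.tail.tail.mul (IsPoly.var iL.succ.succ)).add (IsPoly.var 1)).mul
      (IsPoly.var iB.succ.succ)).add (IsPoly.var 0)) T)
    (NS.inV (((IsPoly.var 1).mul (IsPoly.var iB.succ.succ)).add (IsPoly.var 0)) X)))

lemma powP (iB iL ik : Fin k) (P Y : Fin m) :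
    NS k m (fun _ b v V => PowP b (v iB : ℕ) (v iL : ℕ) (v ik : ℕ) (V P) (V Y)) := by
  unfold PowP
  refine NS.exS (NS.and (row iB iL (pc 0) 0 P.succ) (NS.and (row iB iL (IsPoly.var ik) 0 Y.succ)
    (NS.alllt ik (NS.exS (NS.exS ?_)))))
  -- `R'` 0, `R` 1, `T` 2; `j` 0
  refine NS.and (NS.num iB.succ iL.succ (pc 0) 1) (NS.and (NS.num iB.succ iL.succ (pc 0) 0)
    (NS.and (row iB.succ iL.succ (IsPoly.var 0) 2 1) (NS.and
    (row iB.succ iL.succ ((IsPoly.var 0).add (pc 1)) 2 0)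
    (NS.mulP iB.succ iL.succ 1 P.succ.succ.succ 0))))

lemma ltP (iB iL : Fin k) (X Y : Fin m) :
    NS k m (fun _ b v V => LtP b (v iB : ℕ) (v iL : ℕ) (V X) (V Y)) := by
  unfold LtP
  refine NS.exS (NS.and (NS.num iB iL (pc 0) 0) (NS.and (NS.not (NS.alllt iL
    (NS.inV (((IsPoly.var 0).mul (IsPoly.var iB.succ)).add (pc 0)) 0)))
    (NS.addP iB iL X.succ 0 Y.succ)))

end NS

/-! ### Semantics -/

lemma hz_iff {n B L l₀ : ℕ} {X : Finset (Fin n)} {x : ℕ} (hB : 1 ≤ B) (hl : l₀ ≤ L)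
    (hX : Cd B L 0 X x) : HZ B L l₀ X ↔ x < B ^ l₀ := by
  have hc : ∀ i, i < L → ∀ d, d < B → (inV X (i * B + d) ↔ dg B x i = d) := by
    intro i hi d hd
    have := hX.2 i hi d hd
    rw [zero_add] at this
    exact this
  constructor
  · intro h
    exact lt_of_top_zero hB hX.1 hl (fun l h1 h2 => (hc l h1 0 (by omega)).1 (h l h1 (by omega)))
  · intro h l h1 h2
    exact (hc l h1 0 (by omega)).2 (dg_eq_zero h hB (by omega))

lemma row_iff {n B L j : ℕ} {T X : Finset (Fin n)} {x : ℕ} (hX : Cd B L 0 X x) :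
    Row B L j T X ↔ Cd B L (j * L) T x := by
  have hc : ∀ i, i < L → ∀ d, d < B → (inV X (i * B + d) ↔ x / B ^ i % B = d) := by
    intro i hi d hd
    have := hX.2 i hi d hd
    rw [zero_add] at this
    exact this
  constructor
  · intro h
    refine ⟨hX.1, fun i hi d hd => ?_⟩
    rw [h i hi d hd, hc i hi d hd]
  · intro h i hi d hd
    rw [h.2 i hi d hd, hc i hi d hd]

lemma powP_iff {n b B L k : ℕ} (h : Ctx n b B L) (hk : k ≤ L) {P Y : Finset (Fin n)} {p y : ℕ}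
    (hp : 1 ≤ p) (hP : Cd B L 0 P p) (hY : Cd B L 0 Y y) :
    PowP b B L k P Y ↔ y = p ^ (k + 1) := by
  have hB : 1 ≤ B := by have := h.two; omega
  constructor
  · rintro ⟨T, _, h0, h1, h2⟩
    rw [row_iff hP] at h0
    rw [row_iff hY] at h1
    have key : ∀ j, j ≤ k → Cd B L (j * L) T (p ^ (j + 1)) := by
      intro j
      induction j with
      | zero => intro _; rw [zero_add, pow_one]; exact h0
      | succ j ih =>
        intro hj
        obtain ⟨R, _, R', _, n1, n2, r1, r2, m1⟩ := h2 j (by omega)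
        obtain ⟨r, hr⟩ := (t_num n B L 0 R hB).1 n1
        obtain ⟨r', hr'⟩ := (t_num n B L 0 R' hB).1 n2
        rw [row_iff hr] at r1
        rw [row_iff hr'] at r2
        rw [mulP_iff t_mul h hr hP hr'] at m1
        have e1 := t_uniq n B L (j * L) T _ _ hB r1 (ih (by omega))
        rw [e1, ← pow_succ] at m1
        rw [m1]
        exact r2
    exact t_uniq n B L (k * L) T _ _ hB h1 (key k le_rfl)
  · rintro rfl
    have hlt : ∀ j, j ≤ k → p ^ (j + 1) < B ^ L := fun j hj =>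
      lt_of_le_of_lt (Nat.pow_le_pow_right hp (by omega)) hY.1
    let D : ℕ → ℕ := fun q => dg B (p ^ (q / L + 1)) (q % L)
    have hD : ∀ q, D q < B := fun q => dg_lt hB _ _
    have hroom : (L + 1) * L * B ≤ n := h.room
    have hpos : ∀ j, j ≤ k → ∀ i, i < L → j * L + i < (L + 1) * L := by
      intro j hj i hi
      calc j * L + i < j * L + L := by omega
        _ = (j + 1) * L := by ring
        _ ≤ (L + 1) * L := Nat.mul_le_mul_right _ (by omega)
    have cdT : ∀ j, j ≤ k → Cd B L (j * L) (mkSet n B ((L + 1) * L) D) (p ^ (j + 1)) := by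
      intro j hj
      refine ⟨hlt j hj, fun i hi d hd => ?_⟩
      rw [inV_mkSet hD hroom (hpos j hj i hi) hd]
      obtain ⟨e1, e2⟩ := ne_of_row hi (rfl : j * L + i = j * L + i)
      show dg B (p ^ ((j * L + i) / L + 1)) ((j * L + i) % L) = d ↔ _
      rw [e1, e2]
      exact Iff.rfl
    refine ⟨mkSet n B ((L + 1) * L) D, (card_mkSet _ _ _ _).trans h.card, ?_, ?_, ?_⟩
    · rw [row_iff hP]
      have := cdT 0 (by omega)
      rwa [zero_add, pow_one] at this
    · rw [row_iff hY]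
      exact cdT k le_rfl
    · intro j hj
      obtain ⟨R, c1, hR⟩ := ex_code t_exCd h (hlt j (by omega))
      obtain ⟨R', c2, hR'⟩ := ex_code t_exCd h (hlt (j + 1) (by omega))
      refine ⟨R, c1, R', c2, (t_num n B L 0 R hB).2 ⟨_, hR⟩, (t_num n B L 0 R' hB).2 ⟨_, hR'⟩,
        (row_iff hR).2 (cdT j (by omega)), (row_iff hR').2 (cdT (j + 1) (by omega)), ?_⟩
      rw [mulP_iff t_mul h hR hP hR', ← pow_succ]

lemma ltP_iff {n b B L : ℕ} (h : Ctx n b B L) {X Y : Finset (Fin n)} {x y : ℕ}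
    (hX : Cd B L 0 X x) (hY : Cd B L 0 Y y) : LtP b B L X Y ↔ x < y := by
  have hB : 1 ≤ B := by have := h.two; omega
  have hz : ∀ {D : Finset (Fin n)} {z : ℕ}, Cd B L 0 D z →
      ((∀ l, l < L → inV D (l * B + 0)) ↔ z = 0) := by
    intro D z hD
    have h1 := hz_iff (l₀ := 0) hB (Nat.zero_le _) hD
    rw [pow_zero] at h1
    constructor
    · intro h2
      have := h1.1 (fun l hl _ => h2 l hl)
      omega
    · intro h2 l hl
      exact h1.2 (by omega) l hl (by omega)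
  constructor
  · rintro ⟨D, _, nD, dz, ad⟩
    obtain ⟨z, hD⟩ := (t_num n B L 0 D hB).1 nD
    rw [hz hD] at dz
    rw [addP_iff t_add h hX hD hY] at ad
    omega
  · intro hlt
    obtain ⟨D, c1, hD⟩ := ex_code t_exCd h (x := y - x) (by have := hY.1; omega)
    refine ⟨D, c1, (t_num n B L 0 D hB).2 ⟨_, hD⟩, ?_, ?_⟩
    · rw [hz hD]; omega
    · rw [addP_iff t_add h hX hD hY]; omega

end Pool.Agent.Helper12.SS
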