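import Pool.Agent.Helper14.SS.Diag

/-!
# Rudimentary sets with advice: definitions and statements
-/

set_option autoImplicit false

namespace Pool.Agent.Helper12.SS

open FirstOrder Pool.Agent.Helper20.Spectra Pool.Agent.Helper14.SS

/-- `A` is rudimentary with advice of linear length: there are a rudimentary set `E` and a number
`c` such that for every `N ≥ 1` there is a number `a ≤ (N + 1) ^ c` (the advice, about `c * log N`
bits) with: for all `n` with `N ≤ n < 2 * N`, `n ∈ A` iff the pair `(n, a)`, coded by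
`(n + a) ^ 2 + n`, is in `E`. -/
def RudAdv (A : Set ℕ) : Prop :=
  ∃ (E : Set ℕ) (c : ℕ), IsRudimentary E ∧ ∀ N, 1 ≤ N → ∃ a, a ≤ (N + 1) ^ c ∧
    ∀ n, N ≤ n → n < 2 * N → (n ∈ A ↔ (n + a) ^ 2 + n ∈ E)

/-! ## Adv (helper32), file Helper32/SS/Adv.lean -/

def StmtAdvOf : Prop := ∀ A : Set ℕ, IsRudimentary A → RudAdv A

def StmtAdvFin : Prop := ∀ (A B : Set ℕ) (n₀ : ℕ), RudAdv A → (∀ n, n₀ ≤ n → (n ∈ A ↔ n ∈ B)) →
  RudAdv B

/-- longer windows, by induction on `j`: the advice for `j + 1` codes `N` and two advices -/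
def StmtAdvWin : Prop := ∀ (A : Set ℕ), RudAdv A → ∀ j : ℕ, ∃ (E : Set ℕ) (c : ℕ),
  IsRudimentary E ∧ ∀ N, 1 ≤ N → ∃ a, a ≤ (N + 1) ^ c ∧
    ∀ n, N ≤ n → n < 2 ^ (j + 1) * N → (n ∈ A ↔ (n + a) ^ 2 + n ∈ E)

/-- preimages under polynomials (`q (2 * N) ≤ 2 ^ d * q N`) -/
def StmtAdvPre : Prop := ∀ (A : Set ℕ) (q : Polynomial ℕ), RudAdv A →
  RudAdv {n | 1 ≤ n ∧ q.eval n ∈ A}

/-! ## The diagonal set (helper12) -/

def StmtADiag : Prop := (∀ A, IsSpectrum A → RudAdv A) → ∃ φ : SFm ArL 0 0,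
  ∀ s : ℕ → ℕ, Monotone s → (∀ b, ∃ n, b ≤ s n) → ¬ RudAdv (arithS s φ)

end Pool.Agent.Helper12.SS
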