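import Mathlib

/-!
# Digit arithmetic: addition by a carry row, multiplication by a Horner table
-/

set_option autoImplicit false

namespace Pool.Agent.Helper12.SS

/-- value of the digits `x 0, .., x (M-1)` in base `B` -/
def dval (B M : ℕ) (x : ℕ → ℕ) : ℕ := ∑ i ∈ Finset.range M, x i * B ^ i

lemma dval_zero (B : ℕ) (x : ℕ → ℕ) : dval B 0 x = 0 := by simp [dval]

lemma dval_succ (B M : ℕ) (x : ℕ → ℕ) : dval B (M + 1) x = dval B M x + x M * B ^ M := by
  simp [dval, Finset.sum_range_succ]

lemma dval_cons (B M : ℕ) (x : ℕ → ℕ) :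
    dval B (M + 1) x = x 0 + B * dval B M (fun i => x (i + 1)) := by
  unfold dval
  rw [Finset.sum_range_succ', Finset.mul_sum]
  simp only [pow_zero, mul_one]
  rw [add_comm]
  congr 1
  refine Finset.sum_congr rfl fun i _ => ?_
  rw [pow_succ]; ring

lemma dval_congr {B M : ℕ} {x y : ℕ → ℕ} (h : ∀ i < M, x i = y i) : dval B M x = dval B M y :=
  Finset.sum_congr rfl fun i hi => by rw [h i (Finset.mem_range.1 hi)]

lemma dval_lt {B : ℕ} {M : ℕ} {x : ℕ → ℕ} (h : ∀ i < M, x i < B) : dval B M x < B ^ M := by
  induction M with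
  | zero => simp [dval_zero]
  | succ M ih =>
    rw [dval_succ]
    have h1 := ih fun i hi => h i (by omega)
    have h2 := h M (by omega)
    calc dval B M x + x M * B ^ M < B ^ M + x M * B ^ M := by omega
      _ = (x M + 1) * B ^ M := by ring
      _ ≤ B * B ^ M := Nat.mul_le_mul_right _ h2
      _ = B ^ (M + 1) := by ring

lemma exists_digits {B : ℕ} (hB : 0 < B) {M N : ℕ} (h : N < B ^ M) :
    ∃ x : ℕ → ℕ, (∀ i, x i < B) ∧ dval B M x = N := by
  induction M generalizing N with
  | zero => exact ⟨fun _ => 0, fun _ => hB, by rw [dval_zero]; rw [pow_zero] at h; omega⟩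
  | succ M ih =>
    obtain ⟨x, h1, h2⟩ := ih (N := N / B) (by
      rw [Nat.div_lt_iff_lt_mul hB]; rwa [← pow_succ])
    refine ⟨fun i => Nat.casesOn i (N % B) x, ?_, ?_⟩
    · intro i
      cases i with
      | zero => exact Nat.mod_lt _ hB
      | succ i => exact h1 i
    · rw [dval_cons]
      show N % B + B * dval B M x = N
      rw [h2]; exact Nat.mod_add_div N B

lemma dval_inj {B M : ℕ} {x y : ℕ → ℕ} (hx : ∀ i < M, x i < B) (hy : ∀ i < M, y i < B)
    (h : dval B M x = dval B M y) : ∀ i < M, x i = y i := by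
  induction M generalizing x y with
  | zero => intro i hi; omega
  | succ M ih =>
    rw [dval_cons, dval_cons] at h
    have hx0 := hx 0 (by omega)
    have hy0 := hy 0 (by omega)
    have h0 : x 0 = y 0 := by
      have := congrArg (· % B) h
      simp only [Nat.add_mul_mod_self_left, Nat.mod_eq_of_lt hx0, Nat.mod_eq_of_lt hy0] at this
      exact this
    have hB : 0 < B := by omega
    have h1 : dval B M (fun i => x (i + 1)) = dval B M (fun i => y (i + 1)) := by
      rw [h0] at h
      exact Nat.eq_of_mul_eq_mul_left hB (Nat.add_left_cancel h)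
    have h2 := ih (fun i hi => hx (i + 1) (by omega)) (fun i hi => hy (i + 1) (by omega)) h1
    intro i hi
    cases i with
    | zero => exact h0
    | succ i => exact h2 i (by omega)

/-- the local rule of an addition with carries determines the sum -/
lemma carry_sum {B M : ℕ} {u z c : ℕ → ℕ}
    (h : ∀ i < M, u i + c i = z i + B * c (i + 1)) :
    dval B M u + c 0 = dval B M z + B ^ M * c M := by
  induction M with
  | zero => simp [dval_zero]
  | succ M ih =>
    have h1 := ih fun i hi => h i (by omega)
    have h2 := h M (by omega)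
    rw [dval_succ, dval_succ]
    have h3 : B ^ M * (u M + c M) = B ^ M * (z M + B * c (M + 1)) := by rw [h2]
    have h4 : B ^ (M + 1) * c (M + 1) = B ^ M * (B * c (M + 1)) := by ring
    rw [h4]
    nlinarith [h1, h3]

/-- carries exist: `u i` arbitrary (unreduced) digits bounded by `(B-1) * (K+1)` -/
lemma carry_exists {B M : ℕ} {u z : ℕ → ℕ} (hz : ∀ i < M, z i < B) (hB : 0 < B)
    (h : dval B M u = dval B M z) (K : ℕ) (hu : ∀ i < M, u i ≤ (B - 1) * (K + 1)) :
    ∃ c : ℕ → ℕ, c 0 = 0 ∧ c M = 0 ∧ (∀ i, c i ≤ K) ∧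
      ∀ i < M, u i + c i = z i + B * c (i + 1) := by
  -- the carry into place `i` is `dval B i u / B ^ i`
  refine ⟨fun i => if i ≤ M then dval B i u / B ^ i else 0, ?_, ?_, ?_, ?_⟩
  · simp [dval_zero]
  · show (if M ≤ M then _ else _) = 0
    rw [if_pos le_rfl, h]
    exact Nat.div_eq_of_lt (dval_lt hz)
  · intro i
    show (if i ≤ M then dval B i u / B ^ i else 0) ≤ K
    split_ifs with hi
    · have hb : dval B i u ≤ (B ^ i - 1) * (K + 1) := by
        clear h hz
        induction i with
        | zero => simp [dval_zero]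
        | succ i ih =>
          have h1 := ih (by omega)
          have h2 := hu i (by omega)
          rw [dval_succ]
          have hp : 1 ≤ B ^ i := Nat.one_le_pow _ _ hB
          obtain ⟨P, hP⟩ : ∃ P, B ^ i = P + 1 := ⟨B ^ i - 1, by omega⟩
          obtain ⟨b, hb⟩ : ∃ b, B = b + 1 := ⟨B - 1, by omega⟩
          have e1 : B ^ (i + 1) - 1 = P * (b + 1) + b := by
            rw [pow_succ, hP, hb]
            have : (P + 1) * (b + 1) = P * (b + 1) + b + 1 := by ring
            omega
          rw [e1, hP]
          rw [hP, Nat.add_sub_cancel] at h1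
          rw [hb, Nat.add_sub_cancel] at h2
          have h3 : u i * (P + 1) ≤ b * (K + 1) * (P + 1) := Nat.mul_le_mul_right _ h2
          nlinarith [h1, h3]
      have hp : 0 < B ^ i := pow_pos hB _
      refine Nat.lt_succ_iff.1 ((Nat.div_lt_iff_lt_mul hp).2 (lt_of_le_of_lt hb ?_))
      rw [Nat.succ_eq_add_one, mul_comm (K + 1)]
      exact Nat.mul_lt_mul_of_pos_right (by omega) (by omega)
    · omega
  · intro i hi
    show u i + (if i ≤ M then dval B i u / B ^ i else 0) = z i + B * (if i + 1 ≤ M then
      dval B (i + 1) u / B ^ (i + 1) else 0)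
    rw [if_pos hi.le, if_pos (show i + 1 ≤ M by omega)]
    -- `dval (i+1) u = dval i u + u i B^i`
    have e1 : dval B (i + 1) u / B ^ i = dval B i u / B ^ i + u i := by
      rw [dval_succ]
      exact Nat.add_mul_div_right _ _ (pow_pos hB _)
    have e2 : dval B (i + 1) u / B ^ (i + 1) = (dval B (i + 1) u / B ^ i) / B := by
      rw [Nat.div_div_eq_div_mul, ← pow_succ]
    rw [e2, e1]
    -- the digit of `dval M u = dval M z` at place `i` is `z i`
    have e3 : (dval B i u / B ^ i + u i) % B = z i := by
      rw [← e1]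
      -- both are the digit of the same number
      have key : ∀ w : ℕ → ℕ, (dval B M w / B ^ i) % B = (dval B (i + 1) w / B ^ i) % B := by
        intro w
        obtain ⟨D, rfl⟩ : ∃ D, M = i + 1 + D := ⟨M - (i + 1), by omega⟩
        have : ∀ D, ∃ q, dval B (i + 1 + D) w = dval B (i + 1) w + B ^ (i + 1) * q := by
          intro D
          induction D with
          | zero => exact ⟨0, by simp⟩
          | succ D ihD =>
            obtain ⟨q, hq⟩ := ihD
            refine ⟨q + w (i + 1 + D) * B ^ D, ?_⟩
            rw [← add_assoc, dval_succ, hq, pow_add B (i + 1) D]; ring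
        obtain ⟨q, hq⟩ := this D
        rw [hq, pow_succ, mul_assoc, Nat.add_mul_div_left _ _ (pow_pos hB _),
          Nat.add_mul_mod_self_left]
      rw [← key u, h, key z, dval_succ, Nat.add_mul_div_right _ _ (pow_pos hB _),
        Nat.div_eq_of_lt (dval_lt fun j hj => hz j (by omega)), zero_add,
        Nat.mod_eq_of_lt (hz i hi)]
    have := Nat.mod_add_div (dval B i u / B ^ i + u i) B
    rw [e3] at this
    omega

/-- addition: digitwise with carries `0, 1` -/
theorem add_iff {B M : ℕ} (hB : 0 < B) {x y z : ℕ → ℕ} (hx : ∀ i < M, x i < B)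
    (hy : ∀ i < M, y i < B) (hz : ∀ i < M, z i < B) :
    dval B M x + dval B M y = dval B M z ↔
      ∃ c : ℕ → ℕ, c 0 = 0 ∧ c M = 0 ∧ (∀ i, c i ≤ 1) ∧
        ∀ i < M, x i + y i + c i = z i + B * c (i + 1) := by
  have hs : dval B M (fun i => x i + y i) = dval B M x + dval B M y := by
    unfold dval
    rw [← Finset.sum_add_distrib]
    exact Finset.sum_congr rfl fun i _ => by ring
  constructor
  · intro h
    obtain ⟨c, h1, h2, h3, h4⟩ := carry_exists (u := fun i => x i + y i) hz hB (hs.trans h) 1
      (fun i hi => by have := hx i hi; have := hy i hi; show x i + y i ≤ _; omega)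
    exact ⟨c, h1, h2, h3, h4⟩
  · rintro ⟨c, h1, h2, -, h4⟩
    have := carry_sum (u := fun i => x i + y i) h4
    rw [h1, h2, hs] at this
    simpa using this

/-- the digits of `B * r + x * y j` before reduction -/
def hrow (x : ℕ → ℕ) (y : ℕ) (r : ℕ → ℕ) (i : ℕ) : ℕ := (if i = 0 then 0 else r (i - 1)) + x i * y

lemma dval_hrow {B M : ℕ} (x : ℕ → ℕ) (y : ℕ) (r : ℕ → ℕ) (h : r M = 0) :
    dval B (M + 1) (hrow x y r) = B * dval B (M + 1) r + dval B (M + 1) x * y := by
  have e1 : dval B (M + 1) (hrow x y r) =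
      dval B (M + 1) (fun i => if i = 0 then 0 else r (i - 1)) + dval B (M + 1) x * y := by
    unfold dval hrow
    rw [Finset.sum_mul, ← Finset.sum_add_distrib]
    exact Finset.sum_congr rfl fun i _ => by ring
  rw [e1, dval_cons]
  simp only [Nat.add_sub_cancel, Nat.succ_ne_zero, if_false, if_true, zero_add]
  rw [dval_succ B M r, h]
  simp

/-- multiplication: Horner scheme with reduced rows and carries `< B` -/
theorem mul_iff {B M : ℕ} (hB : 0 < B) {x y z : ℕ → ℕ} (hx : ∀ i < M + 1, x i < B)
    (hy : ∀ i < M + 1, y i < B) (hz : ∀ i < M + 1, z i < B) :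
    dval B (M + 1) x * dval B (M + 1) y = dval B (M + 1) z ↔
      ∃ r c : ℕ → ℕ → ℕ, (∀ j i, r j i < B) ∧ (∀ j i, c j i < B) ∧
        (∀ i < M + 1, r (M + 1) i = 0) ∧ (∀ i < M + 1, r 0 i = z i) ∧
        ∀ j < M + 1, c j 0 = 0 ∧ c j (M + 1) = 0 ∧ r (j + 1) M = 0 ∧
          ∀ i < M + 1, hrow x (y j) (r (j + 1)) i + c j i = r j i + B * c j (i + 1) := by
  -- the Horner rows: `R j = sum_{l >= j} y l B^(l-j)`, times `x`
  constructor
  · intro h
    set X := dval B (M + 1) x with hX
    -- tails of `y`
    let Y : ℕ → ℕ := fun j => dval B (M + 1 - j) (fun i => y (i + j))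
    have hY0 : Y 0 = dval B (M + 1) y := by simp [Y]
    have hYs : ∀ j < M + 1, Y j = y j + B * Y (j + 1) := by
      intro j hj
      show dval B (M + 1 - j) _ = _ + B * dval B (M + 1 - (j + 1)) _
      obtain ⟨e, he⟩ : ∃ e, M + 1 - j = e + 1 := ⟨M + 1 - j - 1, by omega⟩
      have he' : M + 1 - (j + 1) = e := by omega
      rw [he, he', dval_cons]
      simp only [zero_add]
      congr 2
      exact dval_congr fun i _ => by rw [show i + 1 + j = i + (j + 1) by ring]
    have hYl : Y (M + 1) = 0 := by simp [Y, dval_zero]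
    have hmono : ∀ j ≤ M + 1, X * Y j ≤ dval B (M + 1) z := by
      intro j hj
      induction j with
      | zero => rw [hY0, h]
      | succ j ih =>
        have h1 := ih (by omega)
        rw [hYs j (by omega)] at h1
        refine le_trans (Nat.mul_le_mul_left _ ?_) h1
        nlinarith [Nat.zero_le (Y (j + 1)), hB]
    have hlt : ∀ j ≤ M + 1, X * Y j < B ^ (M + 1) := fun j hj =>
      lt_of_le_of_lt (hmono j hj) (dval_lt hz)
    have hex : ∀ j, ∃ r : ℕ → ℕ, (∀ i, r i < B) ∧ (j ≤ M + 1 → dval B (M + 1) r = X * Y j) := by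
      intro j
      by_cases hj : j ≤ M + 1
      · obtain ⟨r, h1, h2⟩ := exists_digits hB (hlt j hj)
        exact ⟨r, h1, fun _ => h2⟩
      · exact ⟨fun _ => 0, fun _ => hB, fun h => absurd h hj⟩
    choose r hr1 hr2 using hex
    have htop : ∀ j < M + 1, r (j + 1) M = 0 := by
      intro j hj
      have h1 := hr2 (j + 1) (by omega)
      have h2 : B * dval B (M + 1) (r (j + 1)) < B ^ (M + 1) := by
        rw [h1]
        refine lt_of_le_of_lt ?_ (hlt j (by omega))
        rw [hYs j hj]; nlinarith [Nat.zero_le (X * y j)]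
      by_contra h3
      have h4 : 1 ≤ r (j + 1) M := by omega
      rw [dval_succ] at h2
      have h5 : B * (B ^ M) ≤ B * (dval B M (r (j + 1)) + r (j + 1) M * B ^ M) :=
        Nat.mul_le_mul_left _ (by nlinarith [pow_pos hB M])
      have h6 : B * B ^ M = B ^ (M + 1) := by ring
      omega
    have hrow_eq : ∀ j < M + 1, dval B (M + 1) (hrow x (y j) (r (j + 1))) =
        dval B (M + 1) (r j) := by
      intro j hj
      rw [dval_hrow _ _ _ (htop j hj), hr2 (j + 1) (by omega), hr2 j (by omega), hYs j hj, ← hX]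
      ring
    have hcar : ∀ j, ∃ c : ℕ → ℕ, (∀ i, c i < B) ∧ (j < M + 1 → c 0 = 0 ∧ c (M + 1) = 0 ∧
        ∀ i < M + 1, hrow x (y j) (r (j + 1)) i + c i = r j i + B * c (i + 1)) := by
      intro j
      by_cases hj : j < M + 1
      · obtain ⟨c, h1, h2, h3, h4⟩ := carry_exists (fun i _ => hr1 j i) hB (hrow_eq j hj) (B - 1)
          (fun i hi => by
            have h5 := hx i hi
            have h6 := hy j hj
            have h7 : (if i = 0 then 0 else r (j + 1) (i - 1)) ≤ B - 1 := by
              split_ifs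
              · omega
              · have := hr1 (j + 1) (i - 1); omega
            have h8 : x i * y j ≤ (B - 1) * (B - 1) :=
              Nat.mul_le_mul (by omega) (by omega)
            unfold hrow
            calc _ ≤ (B - 1) + (B - 1) * (B - 1) := Nat.add_le_add h7 h8
              _ = (B - 1) * (B - 1 + 1) := by ring)
        exact ⟨c, fun i => by have := h3 i; omega, fun _ => ⟨h1, h2, h4⟩⟩
      · exact ⟨fun _ => 0, fun _ => hB, fun h => absurd h hj⟩
    choose c hc1 hc2 using hcar
    refine ⟨r, c, hr1, hc1, ?_, ?_, ?_⟩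
    · have h1 := hr2 (M + 1) le_rfl
      rw [hYl, mul_zero] at h1
      have h0 : dval B (M + 1) (fun _ => 0) = 0 := by simp [dval]
      exact dval_inj (fun i _ => hr1 _ i) (fun _ _ => hB) (h1.trans h0.symm)
    · have h1 := hr2 0 (by omega)
      rw [hY0, h] at h1
      exact dval_inj (fun i _ => hr1 _ i) hz h1
    · intro j hj
      obtain ⟨h1, h2, h3⟩ := hc2 j hj
      exact ⟨h1, h2, htop j hj, h3⟩
  · rintro ⟨r, c, hr, hc, hl, h0, hstep⟩
    have key : ∀ d ≤ M + 1, dval B (M + 1) (r (M + 1 - d)) =
        dval B (M + 1) x * dval B d (fun i => y (i + (M + 1 - d))) := by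
      intro d
      induction d with
      | zero =>
        intro _
        rw [dval_zero, mul_zero, Nat.sub_zero, dval_congr hl]
        simp [dval]
      | succ d ih =>
        intro hd
        have h1 := ih (by omega)
        obtain ⟨c0, cM, rt, hs⟩ := hstep (M + 1 - (d + 1)) (by omega)
        have hj : M + 1 - (d + 1) + 1 = M + 1 - d := by omega
        rw [hj] at rt hs
        have h2 := carry_sum hs
        rw [c0, cM, dval_hrow _ _ _ rt, h1] at h2
        rw [dval_cons B d]
        have e : dval B d (fun i => y (i + 1 + (M + 1 - (d + 1)))) =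
            dval B d (fun i => y (i + (M + 1 - d))) :=
          dval_congr fun i _ => by rw [show i + 1 + (M + 1 - (d + 1)) = i + (M + 1 - d) by omega]
        rw [e, zero_add]
        have h3 : dval B (M + 1) (r (M + 1 - (d + 1))) = B * (dval B (M + 1) x *
            dval B d (fun i => y (i + (M + 1 - d)))) + dval B (M + 1) x * y (M + 1 - (d + 1)) := by
          simpa using h2.symm
        rw [h3]; ring
    have h1 := key (M + 1) le_rfl
    simp only [Nat.sub_self, add_zero] at h1
    rw [← h1]
    exact dval_congr h0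

end Pool.Agent.Helper12.SS
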