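import Mathlib

/-!
# Counting small sets inside random sets, modulo two
-/

set_option autoImplicit false

namespace Pool.Agent.Helper12.SS

open Finset

section Hash

variable {α : Type} [Fintype α] [DecidableEq α]

/-- toggling an element -/
lemma even_card_toggle (Q : Finset (Finset α)) (a : α)
    (h : ∀ W ∈ Q, symmDiff W {a} ∈ Q) : Even Q.card := by
  have h1 : ((Q.card : ℕ) : ZMod 2) = ∑ _W ∈ Q, (1 : ZMod 2) := by simp
  have h2 : ∑ _W ∈ Q, (1 : ZMod 2) = 0 := by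
    refine Finset.sum_involution (fun W _ => symmDiff W {a}) ?_ ?_ (fun W hW => h W hW) ?_
    · intro W hW; exact CharTwo.add_self_eq_zero 1
    · intro W hW _ h3
      have : ({a} : Finset α) = ∅ := by
        have h4 := congrArg (fun T => symmDiff W T) h3
        simp only [symmDiff_symmDiff_cancel_left, symmDiff_self] at h4
        simpa using h4
      exact Finset.singleton_ne_empty a this
    · intro W hW; exact symmDiff_symmDiff_cancel_right _ _
  rw [h2] at h1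
  exact (ZMod.natCast_eq_zero_iff_even).1 h1

lemma exists_odd (P : Finset (Finset α)) (Z₀ : Finset α) (h₀ : Z₀ ∈ P)
    (hmax : ∀ Z ∈ P, Z₀ ⊆ Z → Z = Z₀) (τ : Finset α) (hτ : Disjoint τ Z₀) :
    ∃ W ⊆ Z₀, Odd (P.filter (· ⊆ τ ∪ W)).card := by
  by_contra hne
  push Not at hne
  have h1 : Even (∑ W ∈ Z₀.powerset, (P.filter (· ⊆ τ ∪ W)).card) := by
    refine Finset.even_sum _ (fun W hW => ?_)
    have := hne W (Finset.mem_powerset.1 hW)
    rwa [Nat.not_odd_iff_even] at this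
  have h2 : ∑ W ∈ Z₀.powerset, (P.filter (· ⊆ τ ∪ W)).card =
      ∑ Z ∈ P, (Z₀.powerset.filter (fun W => Z ⊆ τ ∪ W)).card := by
    simp only [Finset.card_filter]
    exact Finset.sum_comm
  rw [h2, ← Finset.add_sum_erase _ _ h₀] at h1
  have h3 : (Z₀.powerset.filter (fun W => Z₀ ⊆ τ ∪ W)).card = 1 := by
    rw [Finset.card_eq_one]
    refine ⟨Z₀, ?_⟩
    ext W
    rw [Finset.mem_filter, Finset.mem_powerset, Finset.mem_singleton]
    constructor
    · rintro ⟨h4, h5⟩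
      refine Finset.Subset.antisymm h4 (fun x hx => ?_)
      rcases Finset.mem_union.1 (h5 hx) with h6 | h6
      · exact absurd hx (Finset.disjoint_left.1 hτ h6)
      · exact h6
    · rintro rfl
      exact ⟨Finset.Subset.refl _, Finset.subset_union_right⟩
  have h4 : Even (∑ Z ∈ P.erase Z₀, (Z₀.powerset.filter (fun W => Z ⊆ τ ∪ W)).card) := by
    refine Finset.even_sum _ (fun Z hZ => ?_)
    rw [Finset.mem_erase] at hZ
    have h5 : ¬ Z₀ ⊆ Z := fun h => hZ.1 (hmax Z hZ.2 h)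
    obtain ⟨a, ha, haZ⟩ := Finset.not_subset.1 h5
    refine even_card_toggle _ a (fun W hW => ?_)
    rw [Finset.mem_filter, Finset.mem_powerset] at hW ⊢
    constructor
    · intro x hx
      rw [Finset.mem_symmDiff, Finset.mem_singleton] at hx
      rcases hx with hx | hx
      · exact hW.1 hx.1
      · rw [hx.1]; exact ha
    · intro x hx
      have hxa : x ≠ a := fun h => haZ (h ▸ hx)
      have := hW.2 hx
      rw [Finset.mem_union] at this ⊢
      rcases this with h6 | h6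
      · exact Or.inl h6
      · right
        rw [Finset.mem_symmDiff, Finset.mem_singleton]
        exact Or.inl ⟨h6, hxa⟩
  rw [h3] at h1
  rw [Nat.even_add] at h1
  exact absurd (h1.2 h4) (by decide)

/-- the number of members of `P` inside `ρ` is odd for at least `2 ^ (-s)` of all sets `ρ` -/
theorem hash (P : Finset (Finset α)) (s : ℕ) (hP : P.Nonempty) (hs : ∀ Z ∈ P, Z.card ≤ s) :
    2 ^ Fintype.card α ≤
      2 ^ s * (univ.filter (fun ρ : Finset α => Odd (P.filter (· ⊆ ρ)).card)).card := by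
  obtain ⟨Z₀, h₀, hmax⟩ : ∃ Z₀ ∈ P, ∀ Z ∈ P, Z₀ ⊆ Z → Z = Z₀ := by
    obtain ⟨Z₀, h1, h2⟩ := P.exists_max_image Finset.card hP
    exact ⟨Z₀, h1, fun Z hZ h => (Finset.eq_of_subset_of_card_le h (h2 Z hZ)).symm⟩
  have h1 : (Z₀ᶜ).powerset.card ≤
      (univ.filter (fun ρ : Finset α => Odd (P.filter (· ⊆ ρ)).card)).card := by
    refine Finset.card_le_card_of_surjOn (fun ρ => ρ \ Z₀) (fun τ hτ => ?_)
    rw [Finset.mem_coe, Finset.mem_powerset] at hτ
    have hd : Disjoint τ Z₀ := by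
      rw [Finset.disjoint_left]
      intro x hx hx'
      exact (Finset.mem_compl.1 (hτ hx)) hx'
    obtain ⟨W, hW, ho⟩ := exists_odd P Z₀ h₀ hmax τ hd
    refine ⟨τ ∪ W, ?_, ?_⟩
    · rw [Finset.mem_coe, Finset.mem_filter]
      exact ⟨Finset.mem_univ _, ho⟩
    · show (τ ∪ W) \ Z₀ = τ
      ext x
      rw [Finset.mem_sdiff, Finset.mem_union]
      constructor
      · rintro ⟨h2 | h2, h3⟩
        · exact h2
        · exact absurd (hW h2) h3
      · intro h2
        exact ⟨Or.inl h2, Finset.disjoint_left.1 hd h2⟩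
  rw [Finset.card_powerset, Finset.card_compl] at h1
  have h2 : Z₀.card ≤ Fintype.card α := Finset.card_le_univ _
  calc 2 ^ Fintype.card α = 2 ^ Z₀.card * 2 ^ (Fintype.card α - Z₀.card) := by
        rw [← pow_add]; congr 1; omega
    _ ≤ 2 ^ s * (univ.filter (fun ρ : Finset α => Odd (P.filter (· ⊆ ρ)).card)).card :=
        Nat.mul_le_mul (Nat.pow_le_pow_right (by norm_num) (hs Z₀ h₀)) h1

/-- weighted form; the weight counts modulo two -/
theorem hash_weight (w : Finset α → ℕ) (s : ℕ) (h : ∃ Z : Finset α, Z.card ≤ s ∧ Odd (w Z)) :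
    2 ^ Fintype.card α ≤ 2 ^ s * (univ.filter (fun ρ : Finset α =>
      Odd (∑ Z ∈ univ.filter (fun Z : Finset α => Z.card ≤ s ∧ Z ⊆ ρ), w Z))).card := by
  have h1 := hash (univ.filter (fun Z : Finset α => Z.card ≤ s ∧ Odd (w Z))) s
    (by obtain ⟨Z, hZ⟩ := h; exact ⟨Z, by simpa using hZ⟩)
    (fun Z hZ => ((Finset.mem_filter.1 hZ).2).1)
  have h2 : ∀ ρ : Finset α, Odd (∑ Z ∈ univ.filter (fun Z : Finset α => Z.card ≤ s ∧ Z ⊆ ρ), w Z) ↔
      Odd ((univ.filter (fun Z : Finset α => Z.card ≤ s ∧ Odd (w Z))).filter (· ⊆ ρ)).card := by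
    intro ρ
    rw [Finset.odd_sum_iff_odd_card_odd, Finset.filter_filter, Finset.filter_filter]
    have : (univ.filter (fun Z : Finset α => (Z.card ≤ s ∧ Z ⊆ ρ) ∧ Odd (w Z))) =
        univ.filter (fun Z : Finset α => (Z.card ≤ s ∧ Odd (w Z)) ∧ Z ⊆ ρ) := by
      refine Finset.filter_congr (fun Z _ => by tauto)
    rw [this]
  simp only [h2]
  exact h1

/-- independent copies: all counts even -/
theorem hash_pi {ι : Type} [Fintype ι] [DecidableEq ι] (w : Finset α → ℕ) (s : ℕ)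
    (h : ∃ Z : Finset α, Z.card ≤ s ∧ Odd (w Z)) :
    (2 ^ s) ^ Fintype.card ι * (univ.filter (fun r : ι → Finset α =>
      ∀ j, Even (∑ Z ∈ univ.filter (fun Z : Finset α => Z.card ≤ s ∧ Z ⊆ r j), w Z))).card ≤
      (2 ^ s - 1) ^ Fintype.card ι * Fintype.card (ι → Finset α) := by
  set E : Finset (Finset α) := univ.filter (fun ρ : Finset α =>
      Even (∑ Z ∈ univ.filter (fun Z : Finset α => Z.card ≤ s ∧ Z ⊆ ρ), w Z)) with hE
  set O : Finset (Finset α) := univ.filter (fun ρ : Finset α =>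
      Odd (∑ Z ∈ univ.filter (fun Z : Finset α => Z.card ≤ s ∧ Z ⊆ ρ), w Z)) with hO
  have h0 : 2 ^ Fintype.card α ≤ 2 ^ s * O.card := hash_weight w s h
  have h1 : E.card + O.card = 2 ^ Fintype.card α := by
    have h2 := Finset.card_filter_add_card_filter_not (s := (univ : Finset (Finset α)))
      (fun ρ : Finset α => Even (∑ Z ∈ univ.filter (fun Z : Finset α => Z.card ≤ s ∧ Z ⊆ ρ), w Z))
    simp only [Nat.not_even_iff_odd] at h2
    rw [Finset.card_univ, Fintype.card_finset] at h2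
    exact h2
  have h3 : 2 ^ s * E.card ≤ (2 ^ s - 1) * 2 ^ Fintype.card α := by
    have h4 : 2 ^ s * E.card + 2 ^ s * O.card = 2 ^ s * 2 ^ Fintype.card α := by
      rw [← mul_add, h1]
    rw [Nat.sub_mul, one_mul]
    omega
  have h5 : (univ.filter (fun r : ι → Finset α =>
      ∀ j, Even (∑ Z ∈ univ.filter (fun Z : Finset α => Z.card ≤ s ∧ Z ⊆ r j), w Z))) =
      Fintype.piFinset (fun _ : ι => E) := by
    ext r
    rw [Finset.mem_filter, Fintype.mem_piFinset]
    simp [hE]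
  rw [h5, Fintype.card_piFinset, Finset.prod_const, Finset.card_univ, ← mul_pow]
  calc (2 ^ s * E.card) ^ Fintype.card ι ≤ ((2 ^ s - 1) * 2 ^ Fintype.card α) ^ Fintype.card ι :=
        Nat.pow_le_pow_left h3 _
    _ = (2 ^ s - 1) ^ Fintype.card ι * Fintype.card (ι → Finset α) := by
        rw [mul_pow, Fintype.card_fun, Fintype.card_finset]

end Hash

/-! ### Amplification -/

/-- `C` even: `(C ^ L - 1) ^ L` is one modulo `2 ^ L`, `L` even -/
lemma amp_even {C L : ℕ} (hL : Even L) (hC1 : 1 ≤ C) (hC : Even C) :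
    (C ^ L - 1) ^ L ≡ 1 [MOD 2 ^ L] := by
  have h1 : 1 ≤ C ^ L := Nat.one_le_pow _ _ hC1
  rw [← Int.natCast_modEq_iff]
  push_cast [Nat.cast_sub h1]
  have h2 : ((2 : ℤ) ^ L) ∣ (C : ℤ) ^ L := by
    obtain ⟨c, hc⟩ := hC
    rw [hc]
    push_cast
    rw [← two_mul, mul_pow]
    exact Dvd.intro _ rfl
  have h3 : (C : ℤ) ^ L - 1 ≡ 0 - 1 [ZMOD 2 ^ L] :=
    Int.ModEq.sub (Int.modEq_zero_iff_dvd.2 h2) rfl
  have h4 := h3.pow L
  rwa [zero_sub, hL.neg_one_pow] at h4

/-- `C` odd: `(C ^ L - 1) ^ L` is zero modulo `2 ^ L` -/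
lemma amp_odd {C L : ℕ} (hC : Odd C) : (C ^ L - 1) ^ L ≡ 0 [MOD 2 ^ L] := by
  rw [Nat.modEq_zero_iff_dvd]
  refine pow_dvd_pow_of_dvd ?_ _
  have h1 : Odd (C ^ L) := hC.pow
  obtain ⟨k, hk⟩ := h1
  rw [hk]
  exact ⟨k, by omega⟩

open Classical in
/-- the digit of the amplified sum -/
lemma digit {ι : Type} (R : Finset ι) {p L : ℕ} (hp : 2 ≤ p) (hL : Even L) (hpL : p < L)
    (hR : R.card = 2 ^ p) (C : ι → ℕ) (hC : ∀ r, 1 ≤ C r) (T : Prop)
    (hbad : 4 * (R.filter (fun r => ¬ (Odd (C r) ↔ T))).card ≤ 2 ^ p) (N : ℕ)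
    (hN : N ≡ 2 ^ (p - 2) + ∑ r ∈ R, (C r ^ L - 1) ^ L [MOD 2 ^ L]) :
    N.testBit p = true ↔ ¬ T := by
  have h1 : ∑ r ∈ R, (C r ^ L - 1) ^ L ≡ (R.filter (fun r => Even (C r))).card [MOD 2 ^ L] := by
    rw [Finset.card_filter]
    refine Nat.ModEq.sum (fun r _ => ?_)
    split_ifs with h
    · exact amp_even hL (hC r) h
    · exact amp_odd (Nat.not_even_iff_odd.1 h)
  set c := (R.filter (fun r => Even (C r))).card with hc
  have h2 : N ≡ 2 ^ (p - 2) + c [MOD 2 ^ L] := hN.trans (Nat.ModEq.add rfl h1)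
  have h4 : 2 ^ p = 4 * 2 ^ (p - 2) := by
    rw [show (4 : ℕ) = 2 ^ 2 by norm_num, ← pow_add]; congr 1; omega
  have h5 : 2 ^ (p + 1) ≤ 2 ^ L := Nat.pow_le_pow_right (by norm_num) (by omega)
  have hcle : c ≤ 2 ^ p := by rw [← hR]; exact Finset.card_filter_le _ _
  have hf : 0 < 2 ^ (p - 2) := Nat.two_pow_pos _
  have h6 : 2 ^ (p - 2) + c < 2 ^ (p + 1) := by
    rw [pow_succ]; omega
  have h7 : N.testBit p = (2 ^ (p - 2) + c).testBit p := by
    have h8 : N % 2 ^ L = 2 ^ (p - 2) + c := by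
      rw [h2, Nat.mod_eq_of_lt (by omega)]
    rw [← h8, Nat.testBit_mod_two_pow]
    simp [hpL]
  rw [h7]
  by_cases hT : T
  · have h9 : c ≤ 2 ^ (p - 2) := by
      have h10 : (R.filter (fun r => Even (C r))).card ≤
          (R.filter (fun r => ¬ (Odd (C r) ↔ T))).card := by
        refine Finset.card_le_card (fun r hr => ?_)
        rw [Finset.mem_filter] at hr ⊢
        refine ⟨hr.1, fun h => ?_⟩
        exact (Nat.not_odd_iff_even.2 hr.2) (h.2 hT)
      omega
    have h11 : (2 ^ (p - 2) + c).testBit p = false := Nat.testBit_lt_two_pow (by omega)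
    rw [h11]
    simp [hT]
  · have h9 : 2 ^ p ≤ c + 2 ^ (p - 2) := by
      have h10 : R.card = (R.filter (fun r => Even (C r))).card +
          (R.filter (fun r => ¬ Even (C r))).card :=
        (Finset.card_filter_add_card_filter_not _).symm
      have h11 : (R.filter (fun r => ¬ Even (C r))).card ≤
          (R.filter (fun r => ¬ (Odd (C r) ↔ T))).card := by
        refine Finset.card_le_card (fun r hr => ?_)
        rw [Finset.mem_filter] at hr ⊢
        refine ⟨hr.1, fun h => ?_⟩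
        exact hT (h.1 (Nat.not_even_iff_odd.1 hr.2))
      omega
    have h12 : (2 ^ (p - 2) + c).testBit p = true := by
      rw [Nat.testBit_eq_decide_div_mod_eq]
      have : (2 ^ (p - 2) + c) / 2 ^ p = 1 := by
        apply Nat.div_eq_of_lt_le
        · omega
        · rw [pow_succ] at h6; omega
      rw [this]
      rfl
    rw [h12]
    simp [hT]

/-! ### The estimate -/

lemma two_mul_pred_pow {m : ℕ} (hm : 1 ≤ m) : 2 * (m - 1) ^ m ≤ m ^ m := by
  obtain ⟨k, rfl⟩ : ∃ k, m = k + 1 := ⟨m - 1, by omega⟩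
  rw [Nat.add_sub_cancel]
  -- `(k + 1) ^ (k + 1) ≥ k ^ (k + 1) + (k + 1) * k ^ k`
  have h1 : k ^ (k + 1) + (k + 1) * k ^ k ≤ (k + 1) ^ (k + 1) := by
    have h2 := Nat.pow_le_pow_left (Nat.le_succ k) k
    have h3 : ∀ j : ℕ, k ^ j + j * k ^ (j - 1) ≤ (k + 1) ^ j := by
      intro j
      induction j with
      | zero => simp
      | succ j ih =>
        rw [Nat.add_sub_cancel]
        have h4 : j * k ^ (j - 1) * k ≤ j * k ^ j ∧ j * k ^ j ≤ j * k ^ (j - 1) * k := by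
          cases j with
          | zero => simp
          | succ j =>
            rw [Nat.add_sub_cancel, mul_assoc, ← pow_succ]
            exact ⟨le_rfl, le_rfl⟩
        calc k ^ (j + 1) + (j + 1) * k ^ j = k ^ j * k + k ^ j + j * k ^ j := by ring
          _ ≤ k ^ j * k + k ^ j + j * k ^ (j - 1) * k := by
              have := h4.2; omega
          _ ≤ k ^ j * k + k ^ j + j * k ^ (j - 1) * k + j * k ^ (j - 1) := Nat.le_add_right _ _
          _ = (k ^ j + j * k ^ (j - 1)) * (k + 1) := by ring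
          _ ≤ (k + 1) ^ j * (k + 1) := Nat.mul_le_mul_right _ ih
          _ = (k + 1) ^ (j + 1) := by ring
    have h5 := h3 (k + 1)
    rwa [Nat.add_sub_cancel] at h5
  calc 2 * k ^ (k + 1) = k ^ (k + 1) + k * k ^ k := by ring
    _ ≤ k ^ (k + 1) + (k + 1) * k ^ k := by
        have : k * k ^ k ≤ (k + 1) * k ^ k := Nat.mul_le_mul_right _ (by omega)
        omega
    _ ≤ (k + 1) ^ (k + 1) := h1

lemma pred_pow_le {m : ℕ} (hm : 1 ≤ m) (n : ℕ) : 2 ^ (n / m) * (m - 1) ^ n ≤ m ^ n := by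
  have h1 : n = m * (n / m) + n % m := (Nat.div_add_mod n m).symm
  calc 2 ^ (n / m) * (m - 1) ^ n = 2 ^ (n / m) * (m - 1) ^ (m * (n / m) + n % m) := by rw [← h1]
    _ = (2 * (m - 1) ^ m) ^ (n / m) * (m - 1) ^ (n % m) := by
        rw [pow_add, mul_pow, ← pow_mul]; ring
    _ ≤ (m ^ m) ^ (n / m) * m ^ (n % m) :=
        Nat.mul_le_mul (Nat.pow_le_pow_left (two_mul_pred_pow hm) _)
          (Nat.pow_le_pow_left (by omega) _)
    _ = m ^ n := by rw [← pow_mul, ← pow_add, ← h1]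

lemma exists_exp_ge (e : ℕ) : ∃ l₀, ∀ l ≥ l₀, (e * (l + 1) ^ 2 + e + 3) * l ≤ 2 ^ l := by
  have h1 : Filter.Tendsto (fun l : ℕ => ((e : ℝ) * ((l : ℝ) + 1) ^ 2 + e + 3) * l / 2 ^ l)
      Filter.atTop (nhds 0) := by
    have ha := tendsto_pow_const_div_const_pow_of_one_lt 3 (show (1 : ℝ) < 2 by norm_num)
    have hb := tendsto_pow_const_div_const_pow_of_one_lt 2 (show (1 : ℝ) < 2 by norm_num)
    have hc := tendsto_pow_const_div_const_pow_of_one_lt 1 (show (1 : ℝ) < 2 by norm_num)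
    have := ((ha.const_mul (e : ℝ)).add (hb.const_mul (2 * e : ℝ))).add
      (hc.const_mul (2 * e + 3 : ℝ))
    simp only [mul_zero, add_zero] at this
    refine this.congr (fun l => ?_)
    ring
  have h2 := (h1.eventually (gt_mem_nhds (show (0 : ℝ) < 1 by norm_num)))
  obtain ⟨l₀, h3⟩ := Filter.eventually_atTop.1 h2
  refine ⟨l₀, fun l hl => ?_⟩
  have h4 := h3 l hl
  rw [div_lt_one (by positivity)] at h4
  have h5 : (((e * (l + 1) ^ 2 + e + 3) * l : ℕ) : ℝ) ≤ ((2 ^ l : ℕ) : ℝ) := by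
    push_cast
    exact h4.le
  exact_mod_cast h5

/-- for `2 ^ s ≤ log n` the union bound over `n ^ (e * (s + 1))` events of probability
`(1 - 2 ^ (-s)) ^ n` -/
lemma est (e : ℕ) : ∃ n₀, ∀ n ≥ n₀, ∀ s, 2 ^ s ≤ Nat.log 2 n →
    4 * e * n ^ (e * (s + 1)) * (2 ^ s - 1) ^ n ≤ (2 ^ s) ^ n := by
  obtain ⟨l₀, hl⟩ := exists_exp_ge e
  refine ⟨2 ^ (l₀ + 1), fun n hn s hs => ?_⟩
  have hn0 : n ≠ 0 := by have := Nat.two_pow_pos (l₀ + 1); omega
  set l := Nat.log 2 n with hldef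
  have hl1 : l₀ + 1 ≤ l := by
    rw [hldef]
    exact (Nat.le_log_iff_pow_le (by norm_num) hn0).2 hn
  have h1 : 2 ^ l ≤ n := Nat.pow_log_le_self 2 hn0
  have h2 : n < 2 ^ (l + 1) := Nat.lt_pow_succ_log_self (by norm_num) n
  have hs1 : s + 1 ≤ l := by
    have : s < 2 ^ s := Nat.lt_two_pow_self
    omega
  have h3 : e * (l + 1) ^ 2 + e + 3 ≤ n / 2 ^ s := by
    rw [Nat.le_div_iff_mul_le (by positivity)]
    calc (e * (l + 1) ^ 2 + e + 3) * 2 ^ s ≤ (e * (l + 1) ^ 2 + e + 3) * l :=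
          Nat.mul_le_mul_left _ hs
      _ ≤ 2 ^ l := hl l (by omega)
      _ ≤ n := h1
  have h4 : 4 * e * n ^ (e * (s + 1)) ≤ 2 ^ (n / 2 ^ s) := by
    calc 4 * e * n ^ (e * (s + 1)) ≤ 4 * 2 ^ e * (2 ^ (l + 1)) ^ (e * (s + 1)) := by
          refine Nat.mul_le_mul (Nat.mul_le_mul_left _ Nat.lt_two_pow_self.le)
            (Nat.pow_le_pow_left h2.le _)
      _ = 2 ^ (2 + e + (l + 1) * (e * (s + 1))) := by
          rw [← pow_mul, pow_add 2 (2 + e), pow_add 2 2 e]
          norm_num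
      _ ≤ 2 ^ (n / 2 ^ s) := by
          refine Nat.pow_le_pow_right (by norm_num) (le_trans ?_ h3)
          have : (l + 1) * (e * (s + 1)) ≤ e * (l + 1) ^ 2 := by
            calc (l + 1) * (e * (s + 1)) = e * ((l + 1) * (s + 1)) := by ring
              _ ≤ e * ((l + 1) * (l + 1)) :=
                  Nat.mul_le_mul_left _ (Nat.mul_le_mul_left _ (by omega))
              _ = e * (l + 1) ^ 2 := by ring
          omega
  calc 4 * e * n ^ (e * (s + 1)) * (2 ^ s - 1) ^ n ≤ 2 ^ (n / 2 ^ s) * (2 ^ s - 1) ^ n :=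
        Nat.mul_le_mul_right _ h4
    _ ≤ (2 ^ s) ^ n := pred_pow_le Nat.one_le_two_pow n

end Pool.Agent.Helper12.SS
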