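import Pool.Agent.Helper12.SS.Dig
import Pool.Agent.Helper14.SS.Stub

/-!
# Numbers coded by small sets of elements: digit arithmetic
-/

set_option autoImplicit false

namespace Pool.Agent.Helper12.SS

open Pool.Agent.Helper14.SS

/-- the digits of `x` -/
def dg (B x i : ℕ) : ℕ := x / B ^ i % B

lemma dg_lt {B : ℕ} (hB : 1 ≤ B) (x i : ℕ) : dg B x i < B := Nat.mod_lt _ hB

lemma dg_zero (B x : ℕ) : dg B x 0 = x % B := by simp [dg]

lemma dg_succ (B x i : ℕ) : dg B x (i + 1) = dg B (x / B) i := by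
  unfold dg; rw [pow_succ', Nat.div_div_eq_div_mul]

lemma dval_dg {B : ℕ} (hB : 1 ≤ B) (M : ℕ) : ∀ x, dval B M (dg B x) = x % B ^ M := by
  induction M with
  | zero => intro x; rw [dval_zero, pow_zero, Nat.mod_one]
  | succ M ih =>
    intro x
    rw [dval_cons, dg_zero]
    have : (fun i => dg B x (i + 1)) = dg B (x / B) := by funext i; exact dg_succ B x i
    rw [this, ih, pow_succ', Nat.mod_mul]

lemma dval_dg' {B : ℕ} (hB : 1 ≤ B) {M x : ℕ} (h : x < B ^ M) : dval B M (dg B x) = x := by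
  rw [dval_dg hB, Nat.mod_eq_of_lt h]

lemma dg_dval {B : ℕ} {M : ℕ} {x : ℕ → ℕ} (h : ∀ i < M, x i < B) :
    ∀ i < M, dg B (dval B M x) i = x i := by
  induction M generalizing x with
  | zero => intro i hi; omega
  | succ M ih =>
    intro i hi
    have hx0 := h 0 (by omega)
    rw [dval_cons]
    cases i with
    | zero => rw [dg_zero, Nat.add_mul_mod_self_left, Nat.mod_eq_of_lt hx0]
    | succ i =>
      rw [dg_succ, Nat.add_mul_div_left _ _ (by omega), Nat.div_eq_of_lt hx0, zero_add]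
      exact ih (fun i hi => h (i + 1) (by omega)) i (by omega)

lemma pos_inj {B p q d e : ℕ} (hd : d < B) (he : e < B) (h : p * B + d = q * B + e) :
    p = q ∧ d = e := by
  have h1 : p = q := by
    have : (p * B + d) / B = (q * B + e) / B := by rw [h]
    rwa [mul_comm p, mul_comm q, Nat.mul_add_div (by omega), Nat.mul_add_div (by omega),
      Nat.div_eq_of_lt hd, Nat.div_eq_of_lt he, add_zero, add_zero] at this
  subst h1
  exact ⟨rfl, by omega⟩

/-- the set of the elements `p * B + D p`, `p < N` -/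
def mkSet (n B N : ℕ) (D : ℕ → ℕ) : Finset (Fin n) :=
  Finset.univ.filter fun x : Fin n => ∃ p < N, (x : ℕ) = p * B + D p

lemma card_mkSet (n B N : ℕ) (D : ℕ → ℕ) : (mkSet n B N D).card ≤ N := by
  have h : (mkSet n B N D).image (fun x : Fin n => (x : ℕ)) ⊆
      (Finset.range N).image (fun p => p * B + D p) := by
    intro x hx
    rw [Finset.mem_image] at hx
    obtain ⟨y, hy, rfl⟩ := hx
    rw [mkSet, Finset.mem_filter] at hy
    obtain ⟨-, p, hp, h⟩ := hy
    exact Finset.mem_image.2 ⟨p, Finset.mem_range.2 hp, h.symm⟩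
  have h1 : ((mkSet n B N D).image (fun x : Fin n => (x : ℕ))).card = (mkSet n B N D).card :=
    Finset.card_image_of_injective _ Fin.val_injective
  calc (mkSet n B N D).card = _ := h1.symm
    _ ≤ _ := Finset.card_le_card h
    _ ≤ (Finset.range N).card := Finset.card_image_le
    _ = N := Finset.card_range N

lemma inV_mkSet {n B N : ℕ} {D : ℕ → ℕ} (hD : ∀ p, D p < B) (hn : N * B ≤ n) {p : ℕ}
    (hp : p < N) {d : ℕ} (hd : d < B) : inV (mkSet n B N D) (p * B + d) ↔ D p = d := by
  constructor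
  · rintro ⟨x, hx, h⟩
    rw [mkSet, Finset.mem_filter] at hx
    obtain ⟨-, q, hq, h'⟩ := hx
    obtain ⟨rfl, h2⟩ := pos_inj (hD q) hd (h'.symm.trans h)
    exact h2
  · intro h
    have hlt : p * B + d < n := by
      calc p * B + d < p * B + B := by omega
        _ = (p + 1) * B := by ring
        _ ≤ N * B := Nat.mul_le_mul_right _ hp
        _ ≤ n := hn
    refine ⟨⟨p * B + d, hlt⟩, ?_, rfl⟩
    rw [mkSet, Finset.mem_filter]
    exact ⟨Finset.mem_univ _, p, hp, by rw [h]⟩

/-- T4a -/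
theorem t_num : StmtNum := by
  intro n B M o X hB
  constructor
  · intro h
    choose f hf using h
    let D : ℕ → ℕ := fun i => if h : i < M then f i h else 0
    have hD : ∀ i < M, D i < B := by
      intro i hi; simp only [D, dif_pos hi]; exact (hf i hi).1
    refine ⟨dval B M D, dval_lt hD, fun i hi d hd => ?_⟩
    have h1 := dg_dval hD i hi
    unfold dg at h1
    rw [h1]
    simp only [D, dif_pos hi]
    obtain ⟨h2, h3, h4⟩ := hf i hi
    constructor
    · intro h; exact (h4 d hd h).symm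
    · intro h; rwa [h] at h3
  · rintro ⟨x, hx, h⟩ i hi
    have hlt : x / B ^ i % B < B := Nat.mod_lt _ hB
    exact ⟨x / B ^ i % B, hlt, (h i hi _ hlt).2 rfl, fun d' hd' h' => ((h i hi d' hd').1 h').symm⟩

lemma cd_dig {n B M o : ℕ} {X : Finset (Fin n)} {x : ℕ} (h : Cd B M o X x) {i : ℕ} (hi : i < M)
    {d : ℕ} (hd : d < B) : inV X ((o + i) * B + d) ↔ d = dg B x i := by
  rw [h.2 i hi d hd]; exact eq_comm

lemma cd_ex {n B M o : ℕ} (hB : 1 ≤ B) {X : Finset (Fin n)} {x : ℕ} (h : Cd B M o X x) {i : ℕ}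
    (hi : i < M) : inV X ((o + i) * B + dg B x i) := (cd_dig h hi (dg_lt hB x i)).2 rfl

lemma eq_of_dg {B : ℕ} (hB : 1 ≤ B) {M x y : ℕ} (hx : x < B ^ M) (hy : y < B ^ M)
    (h : ∀ i < M, dg B x i = dg B y i) : x = y := by
  rw [← dval_dg' hB hx, ← dval_dg' hB hy]; exact dval_congr h

/-- T4b -/
theorem t_uniq : StmtUniq := by
  intro n B M o X x y hB hx hy
  refine eq_of_dg hB hx.1 hy.1 fun i hi => ?_
  exact (cd_dig hy hi (dg_lt hB x i)).1 (cd_ex hB hx hi)

/-- T4c -/
theorem t_exCd : StmtExCd := by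
  intro n B M x hB hx hn
  refine ⟨mkSet n B M (dg B x), card_mkSet _ _ _ _, hx, fun i hi d hd => ?_⟩
  rw [zero_add]
  exact inV_mkSet (dg_lt hB x) hn hi hd

/-- the shifted row -/
def shf (j : ℕ) (y : ℕ → ℕ) (i : ℕ) : ℕ := if i < j then 0 else y (i - j)

lemma dval_shf {B : ℕ} (y : ℕ → ℕ) (j : ℕ) : ∀ M, j ≤ M →
    dval B M (shf j y) = B ^ j * dval B (M - j) y := by
  intro M hM
  obtain ⟨d, rfl⟩ : ∃ d, M = j + d := ⟨M - j, by omega⟩
  rw [Nat.add_sub_cancel_left]
  clear hM
  induction d with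
  | zero =>
    rw [add_zero, dval_zero, mul_zero]
    exact Finset.sum_eq_zero fun i hi => by
      rw [shf, if_pos (Finset.mem_range.1 hi), zero_mul]
  | succ d ih =>
    rw [← add_assoc, dval_succ, ih, dval_succ, shf, if_neg (by omega), Nat.add_sub_cancel_left,
      pow_add]
    ring

lemma dg_eq_zero {B x M l : ℕ} (h : x < B ^ M) (hB : 1 ≤ B) (hl : M ≤ l) : dg B x l = 0 := by
  unfold dg
  rw [Nat.div_eq_of_lt (lt_of_lt_of_le h (Nat.pow_le_pow_right hB hl)), Nat.zero_mod]

/-- value of a row of digits multiplied by `e` -/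
lemma dval_mul (B M e : ℕ) (y : ℕ → ℕ) : dval B M (fun i => e * y i) = e * dval B M y := by
  unfold dval; rw [Finset.mul_sum]; exact Finset.sum_congr rfl fun i _ => by ring

lemma dval_add (B M : ℕ) (x y : ℕ → ℕ) :
    dval B M (fun i => x i + y i) = dval B M x + dval B M y := by
  unfold dval; rw [← Finset.sum_add_distrib]; exact Finset.sum_congr rfl fun i _ => by ring

lemma lt_of_top_zero {B : ℕ} (hB : 1 ≤ B) {M m y : ℕ} (hy : y < B ^ M) (hm : m ≤ M)
    (h : ∀ l < M, m ≤ l → dg B y l = 0) : y < B ^ m := by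
  have h1 : dval B M (dg B y) = dval B m (dg B y) := by
    obtain ⟨d, rfl⟩ : ∃ d, M = m + d := ⟨M - m, by omega⟩
    clear hy hm
    induction d with
    | zero => rfl
    | succ d ih =>
      rw [← add_assoc, dval_succ, ih fun l hl => h l (by omega),
        h (m + d) (by omega) (by omega), zero_mul, add_zero]
  rw [dval_dg' hB hy] at h1
  rw [h1]
  exact dval_lt fun i _ => dg_lt hB y i

lemma axpy_sound {n B M : ℕ} (hB : 1 ≤ B) {X Y Z C : Finset (Fin n)} {oX oZ oC e j x y z : ℕ}
    (hj : j ≤ M) (hX : Cd B M oX X x) (hY : Cd B M 0 Y y) (hZ : Cd B M oZ Z z)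
    (hC : Num B M oC C) (h : Axpy B M X oX Y Z oZ e j C oC) : x + e * B ^ j * y = z := by
  obtain ⟨c, hc⟩ := (t_num n B M oC C hB).1 hC
  obtain ⟨h0, h1⟩ := h
  -- carries
  let cc : ℕ → ℕ := fun i => if i = 0 then 0 else if i < M then dg B c i else 0
  have key : ∀ i < M, (dg B x i + e * shf j (dg B y) i) + cc i = dg B z i + B * cc (i + 1) := by
    intro i hi
    obtain ⟨x', hx', y', hy', z', hz', c', hc', c'', hc'', e1, e2, e3, e4, e5, e6, e7⟩ := h1 i hi
    rw [(cd_dig hX hi hx').1 e1] at e7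
    rw [(cd_dig hZ hi hz').1 e3] at e7
    have f4 := (cd_dig hc hi hc').1 e4
    have f2 : y' = shf j (dg B y) i := by
      rcases e2 with ⟨l, hl, hli, hl2⟩ | ⟨h5, h6⟩
      · have h7 : inV Y ((0 + l) * B + y') := by rw [zero_add]; exact hl2
        rw [(cd_dig hY hl hy').1 h7, shf, if_neg (by omega)]
        congr 1; omega
      · rw [h6, shf, if_pos h5]
    have f5 : c' = cc i := by
      show c' = if i = 0 then 0 else if i < M then dg B c i else 0
      by_cases hi0 : i = 0
      · rw [if_pos hi0]; exact e5 hi0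
      · rw [if_neg hi0, if_pos hi]; exact f4
    have f6 : c'' = cc (i + 1) := by
      show c'' = if i + 1 = 0 then 0 else if i + 1 < M then dg B c (i + 1) else 0
      rw [if_neg (Nat.succ_ne_zero i)]
      rcases e6 with ⟨h5, h6⟩ | ⟨h5, h6⟩
      · rw [if_pos h5]
        exact (cd_dig hc h5 hc'').1 (by rw [← add_assoc]; exact h6)
      · rw [if_neg (by omega)]; exact h6
    rw [← f5, ← f6, ← f2]
    omega
  have h2 := carry_sum key
  have hc0 : cc 0 = 0 := by simp [cc]
  have hcM : cc M = 0 := by simp [cc]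
  rw [hc0, hcM, dval_add, dval_mul, dval_shf _ _ _ hj, dval_dg' hB hX.1, dval_dg' hB hZ.1] at h2
  rcases Nat.eq_zero_or_pos e with he | he
  · subst he; simpa using h2
  · have h3 : y < B ^ (M - j) := by
      refine lt_of_top_zero hB hY.1 (by omega) fun l hl hl2 => ?_
      have := h0 l hl (by omega) he
      exact ((cd_dig hY hl hB).1 (by rw [zero_add]; exact this)).symm
    rw [dval_dg' hB h3] at h2
    rw [mul_assoc]
    simpa using h2

lemma carry_row {B M : ℕ} (hB : 1 ≤ B) {e j x y z : ℕ} (he : e < B) (hj : j ≤ M)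
    (hx : x < B ^ M) (hy : y < B ^ M) (hz : z < B ^ M) (h : x + e * B ^ j * y = z) :
    ∃ c : ℕ → ℕ, (∀ i, c i < B) ∧ c 0 = 0 ∧ c M = 0 ∧ (∀ l, l < M → M ≤ l + j → 1 ≤ e →
      dg B y l = 0) ∧
      ∀ i < M, (dg B x i + e * shf j (dg B y) i) + c i = dg B z i + B * c (i + 1) := by
  have htop : 1 ≤ e → y < B ^ (M - j) := by
    intro he1
    by_contra h1
    push_neg at h1
    have h2 : B ^ M ≤ e * B ^ j * y := by
      calc B ^ M = B ^ j * B ^ (M - j) := by rw [← pow_add]; congr 1; omega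
        _ ≤ B ^ j * y := Nat.mul_le_mul_left _ h1
        _ ≤ e * (B ^ j * y) := Nat.le_mul_of_pos_left _ he1
        _ = e * B ^ j * y := by ring
    omega
  have hu : dval B M (fun i => dg B x i + e * shf j (dg B y) i) = dval B M (dg B z) := by
    rw [dval_add, dval_mul, dval_shf _ _ _ hj, dval_dg' hB hx, dval_dg' hB hz, ← h]
    rcases Nat.eq_zero_or_pos e with h0 | h0
    · subst h0; simp
    · rw [dval_dg' hB (htop h0)]; ring
  obtain ⟨c, h1, h2, h3, h4⟩ := carry_exists (fun i _ => dg_lt hB z i) hB hu (B - 1) (by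
    intro i _
    have h5 := dg_lt hB x i
    have h6 : shf j (dg B y) i ≤ B - 1 := by
      unfold shf
      split_ifs
      · omega
      · have := dg_lt hB y (i - j); omega
    have h7 : e * shf j (dg B y) i ≤ (B - 1) * (B - 1) := Nat.mul_le_mul (by omega) h6
    calc _ ≤ (B - 1) + (B - 1) * (B - 1) := Nat.add_le_add (by omega) h7
      _ = (B - 1) * (B - 1 + 1) := by ring)
  refine ⟨c, fun i => by have := h3 i; omega, h1, h2, fun l hl hl2 he1 => ?_, h4⟩
  exact dg_eq_zero (htop he1) hB (by omega)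

lemma axpy_complete {n B M : ℕ} (hB : 1 ≤ B) {X Y Z C : Finset (Fin n)} {oX oZ oC e j x y z : ℕ}
    (hX : Cd B M oX X x) (hY : Cd B M 0 Y y) (hZ : Cd B M oZ Z z)
    {c : ℕ → ℕ} (hcB : ∀ i, c i < B) (hc0 : c 0 = 0) (hcM : c M = 0)
    (htop : ∀ l, l < M → M ≤ l + j → 1 ≤ e → dg B y l = 0)
    (hstep : ∀ i < M, (dg B x i + e * shf j (dg B y) i) + c i = dg B z i + B * c (i + 1))
    (hC : ∀ i < M, inV C ((oC + i) * B + c i)) : Axpy B M X oX Y Z oZ e j C oC := by
  refine ⟨fun l hl h1 h2 => ?_, fun i hi => ?_⟩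
  · have := cd_ex hB hY hl
    rw [htop l hl h1 h2, zero_add] at this
    exact this
  · refine ⟨dg B x i, dg_lt hB _ _, shf j (dg B y) i, ?_, dg B z i, dg_lt hB _ _, c i, hcB i,
      c (i + 1), hcB _, cd_ex hB hX hi, ?_, cd_ex hB hZ hi, hC i hi, ?_, ?_, ?_⟩
    · unfold shf
      split_ifs
      · omega
      · exact dg_lt hB _ _
    · by_cases hij : i < j
      · right; exact ⟨hij, by rw [shf, if_pos hij]⟩
      · left
        refine ⟨i - j, by omega, by omega, ?_⟩
        rw [shf, if_neg hij]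
        have := cd_ex hB hY (show i - j < M by omega)
        rwa [zero_add] at this
    · intro h; rw [h]; exact hc0
    · by_cases h1 : i + 1 < M
      · left; exact ⟨h1, by rw [add_assoc]; exact hC (i + 1) h1⟩
      · right; exact ⟨by omega, by rw [show i + 1 = M by omega]; exact hcM⟩
    · have := hstep i hi
      omega

/-- T4d -/
theorem t_add : StmtAdd := by
  intro n b B M X Y Z x y z hB hb hn hX hY hZ
  have hB1 : 1 ≤ B := by omega
  constructor
  · rintro ⟨C, -, hC, h⟩
    have := axpy_sound hB1 (Nat.zero_le M) hX hY hZ hC h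
    simpa using this
  · intro h
    obtain ⟨c, hcB, hc0, hcM, htop, hstep⟩ := carry_row (e := 1) (j := 0) hB1 (by omega)
      (Nat.zero_le M) hX.1 hY.1 hZ.1 (by simpa using h)
    have hin : ∀ i < M, ∀ d < B, inV (mkSet n B M c) ((0 + i) * B + d) ↔ c i = d := by
      intro i hi d hd
      rw [zero_add]; exact inV_mkSet hcB hn hi hd
    refine ⟨mkSet n B M c, le_trans (card_mkSet _ _ _ _) hb, ?_, ?_⟩
    · intro i hi
      exact ⟨c i, hcB i, (hin i hi _ (hcB i)).2 rfl,
        fun d' hd' h' => ((hin i hi d' hd').1 h').symm⟩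
    · exact axpy_complete hB1 hX hY hZ hcB hc0 hcM htop hstep
        fun i hi => (hin i hi _ (hcB i)).2 rfl

lemma mod_succ_pow {B : ℕ} (x j : ℕ) : x % B ^ (j + 1) = x % B ^ j + dg B x j * B ^ j := by
  rw [pow_succ, Nat.mod_mul]
  unfold dg; ring

lemma ne_of_row {M j i p : ℕ} (hi : i < M) (h : p = j * M + i) : p / M = j ∧ p % M = i := by
  subst h
  constructor
  · rw [mul_comm, Nat.mul_add_div (by omega), Nat.div_eq_of_lt hi, add_zero]
  · rw [mul_comm, Nat.mul_add_mod, Nat.mod_eq_of_lt hi]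

/-- T4e -/
theorem t_mul : StmtMul := by
  intro n b B M X Y Z x y z hB hb hn hX hY hZ
  have hB1 : 1 ≤ B := by omega
  constructor
  · rintro ⟨T, -, C, -, hT, hC, h0, hM, hstep⟩
    have hR : ∀ j, ∃ r, j ≤ M → Cd B M (j * M) T r := by
      intro j
      by_cases hj : j ≤ M
      · obtain ⟨r, hr⟩ := (t_num n B M (j * M) T hB1).1 (hT j hj)
        exact ⟨r, fun _ => hr⟩
      · exact ⟨0, fun h => absurd h hj⟩
    choose r hr using hR
    have r0 : r 0 = 0 := by
      have h1 := hr 0 (Nat.zero_le _)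
      refine eq_of_dg hB1 h1.1 (pow_pos (by omega) _) fun i hi => ?_
      have h2 := (cd_dig h1 hi hB1).1 (by rw [zero_mul, zero_add]; exact h0 i hi)
      rw [← h2]
      unfold dg
      rw [Nat.zero_div, Nat.zero_mod]
    have rM : r M = z := by
      have h1 := hr M le_rfl
      refine eq_of_dg hB1 h1.1 hZ.1 fun i hi => ?_
      have h2 := (hM i hi _ (dg_lt hB1 (r M) i)).1 (cd_ex hB1 h1 hi)
      exact (cd_dig hZ hi (dg_lt hB1 _ _)).1 (by rw [zero_add]; exact h2)
    have key : ∀ j ≤ M, r j = x % B ^ j * y := by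
      intro j
      induction j with
      | zero => intro _; rw [r0, pow_zero, Nat.mod_one, zero_mul]
      | succ j ih =>
        intro hj
        obtain ⟨e, he, he2, h1⟩ := hstep j (by omega)
        have h2 := axpy_sound hB1 (by omega) (hr j (by omega)) hY (hr (j + 1) hj)
          (hC j (by omega)) h1
        have h3 : e = dg B x j := (cd_dig hX (by omega) he).1 (by rw [zero_add]; exact he2)
        rw [← h2, ih (by omega), h3, mod_succ_pow]; ring
    rw [← rM, key M le_rfl, Nat.mod_eq_of_lt hX.1]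
  · intro h
    rcases Nat.eq_zero_or_pos M with hM0 | hM0
    · subst hM0
      refine ⟨∅, by simp, ∅, by simp, ?_, ?_, ?_, ?_, ?_⟩
      · intro j _ i hi; omega
      · intro j hj; omega
      · intro i hi; omega
      · intro i hi; omega
      · intro j hj; omega
    -- rows
    let R : ℕ → ℕ := fun j => x % B ^ j * y
    have hRle : ∀ j, R j ≤ z := fun j => by
      rw [← h]; exact Nat.mul_le_mul_right _ (Nat.mod_le _ _)
    have hRlt : ∀ j, R j < B ^ M := fun j => lt_of_le_of_lt (hRle j) hZ.1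
    have hRs : ∀ j, R j + dg B x j * B ^ j * y = R (j + 1) := by
      intro j
      show x % B ^ j * y + _ = x % B ^ (j + 1) * y
      rw [mod_succ_pow]; ring
    have hcar : ∀ j, ∃ c : ℕ → ℕ, (∀ i, c i < B) ∧ (j < M → c 0 = 0 ∧ c M = 0 ∧
        (∀ l, l < M → M ≤ l + j → 1 ≤ dg B x j → dg B y l = 0) ∧
        ∀ i < M, (dg B (R j) i + dg B x j * shf j (dg B y) i) + c i =
          dg B (R (j + 1)) i + B * c (i + 1)) := by
      intro j
      by_cases hj : j < M
      · obtain ⟨c, h1, h2, h3, h4, h5⟩ := carry_row hB1 (dg_lt hB1 x j) hj.le (hRlt j) hY.1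
          (hRlt (j + 1)) (hRs j)
        exact ⟨c, h1, fun _ => ⟨h2, h3, h4, h5⟩⟩
      · exact ⟨fun _ => 0, fun _ => (show (0 : ℕ) < B by omega), fun h => absurd h hj⟩
    choose c hcB hc using hcar
    let DT : ℕ → ℕ := fun p => dg B (R (p / M)) (p % M)
    let DC : ℕ → ℕ := fun p => c (p / M) (p % M)
    have hDT : ∀ p, DT p < B := fun p => dg_lt hB1 _ _
    have hDC : ∀ p, DC p < B := fun p => hcB _ _
    have hpos : ∀ j ≤ M, ∀ i < M, j * M + i < (M + 1) * M := by
      intro j hj i hi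
      calc j * M + i < j * M + M := by omega
        _ = (j + 1) * M := by ring
        _ ≤ (M + 1) * M := Nat.mul_le_mul_right _ (by omega)
    have inT : ∀ j ≤ M, ∀ i < M, ∀ d < B,
        inV (mkSet n B ((M + 1) * M) DT) ((j * M + i) * B + d) ↔ dg B (R j) i = d := by
      intro j hj i hi d hd
      rw [inV_mkSet hDT hn (hpos j hj i hi) hd]
      obtain ⟨e1, e2⟩ := ne_of_row hi (rfl : j * M + i = j * M + i)
      show dg B (R ((j * M + i) / M)) ((j * M + i) % M) = d ↔ _
      rw [e1, e2]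
    have inC : ∀ j ≤ M, ∀ i < M, ∀ d < B,
        inV (mkSet n B ((M + 1) * M) DC) ((j * M + i) * B + d) ↔ c j i = d := by
      intro j hj i hi d hd
      rw [inV_mkSet hDC hn (hpos j hj i hi) hd]
      obtain ⟨e1, e2⟩ := ne_of_row hi (rfl : j * M + i = j * M + i)
      show c ((j * M + i) / M) ((j * M + i) % M) = d ↔ _
      rw [e1, e2]
    have cdT : ∀ j ≤ M, Cd B M (j * M) (mkSet n B ((M + 1) * M) DT) (R j) :=
      fun j hj => ⟨hRlt j, fun i hi d hd => inT j hj i hi d hd⟩
    refine ⟨_, le_trans (card_mkSet n B ((M + 1) * M) DT) hb, _,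
      le_trans (card_mkSet n B ((M + 1) * M) DC) hb, ?_, ?_, ?_, ?_, ?_⟩
    · intro j hj
      exact (t_num n B M (j * M) _ hB1).2 ⟨R j, cdT j hj⟩
    · intro j hj i hi
      exact ⟨c j i, hcB j i, (inC j hj.le i hi _ (hcB j i)).2 rfl,
        fun d' hd' h' => ((inC j hj.le i hi d' hd').1 h').symm⟩
    · intro i hi
      have := inT 0 (Nat.zero_le _) i hi 0 (by omega)
      rw [zero_mul, zero_add] at this
      rw [this]
      show dg B (x % B ^ 0 * y) i = 0
      rw [pow_zero, Nat.mod_one, zero_mul]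
      unfold dg; rw [Nat.zero_div, Nat.zero_mod]
    · intro i hi d hd
      rw [inT M le_rfl i hi d hd]
      have h1 := cd_dig hZ hi hd
      rw [zero_add] at h1
      rw [h1]
      have : R M = z := by
        show x % B ^ M * y = z
        rw [Nat.mod_eq_of_lt hX.1, h]
      rw [this]; exact eq_comm
    · intro j hj
      obtain ⟨h1, h2, h3, h4⟩ := hc j hj
      refine ⟨dg B x j, dg_lt hB1 _ _, ?_, ?_⟩
      · have := cd_ex hB1 hX hj
        rwa [zero_add] at this
      · exact axpy_complete hB1 (cdT j hj.le) hY (cdT (j + 1) hj) (hcB j) h1 h2 h3 h4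
          fun i hi => (inC j hj.le i hi _ (hcB j i)).2 rfl

end Pool.Agent.Helper12.SS
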